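import Pool.Agent.RelA.Targets

/-!
# The linear algebra lemma (job ALG)
-/

set_option autoImplicit false

namespace Pool.Agent.RelA

open MvPolynomial

namespace ALG_

variable {F : Type} [Field F]

/-- The multilinear polynomial of a Boolean point. -/
noncomputable def del {M : ℕ} (x : Fin M → Bool) : MvPolynomial (Fin M) F :=
  ∏ v, (if x v = true then X v else 1 - X v)

lemma eval_del {M : ℕ} (x : Fin M → Bool) (z : Fin M → F) :
    MvPolynomial.eval z (del x) = ∏ v, (if x v = true then z v else 1 - z v) := by
  unfold del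
  rw [map_prod]
  refine Finset.prod_congr rfl fun v _ => ?_
  by_cases h : x v = true
  · simp [h]
  · simp [h]

lemma eval_del_bp {M : ℕ} (x x' : Fin M → Bool) :
    MvPolynomial.eval (bp F x') (del x) = if x' = x then 1 else 0 := by
  rw [eval_del]
  by_cases h : x' = x
  · subst h
    rw [if_pos rfl]
    refine Finset.prod_eq_one fun v _ => ?_
    by_cases h : x' v = true
    · simp [bp, h]
    · simp [bp, h]
  · rw [if_neg h]
    obtain ⟨v, hv⟩ : ∃ v, x' v ≠ x v := by
      by_contra hc
      push Not at hc
      exact h (funext hc)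
    refine Finset.prod_eq_zero (Finset.mem_univ v) ?_
    cases h1 : x v <;> cases h2 : x' v <;> simp_all [bp]

lemma degreeOf_lin {M : ℕ} (x : Fin M → Bool) (v w : Fin M) :
    MvPolynomial.degreeOf v ((if x w = true then X w else 1 - X w) : MvPolynomial (Fin M) F) ≤
      if v = w then 1 else 0 := by
  have hX : MvPolynomial.degreeOf v (X w : MvPolynomial (Fin M) F) ≤ if v = w then 1 else 0 := by
    rw [MvPolynomial.degreeOf_X]
  by_cases h : x w = true
  · rw [if_pos h]
    exact hX
  · rw [if_neg h]
    refine (MvPolynomial.degreeOf_sub_le v 1 (X w)).trans ?_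
    rw [MvPolynomial.degreeOf_one]
    exact max_le (Nat.zero_le _) hX

lemma degreeOf_del {M : ℕ} (x : Fin M → Bool) (v : Fin M) :
    MvPolynomial.degreeOf v (del x : MvPolynomial (Fin M) F) ≤ 1 := by
  unfold del
  refine (MvPolynomial.degreeOf_prod_le v _ _).trans ?_
  refine (Finset.sum_le_sum fun w _ => degreeOf_lin x v w).trans ?_
  rw [Finset.sum_ite_eq Finset.univ v fun _ => 1]
  simp

end ALG_

open ALG_

theorem alg : T_ALG := by
  classical
  intro F _ M Z
  by_contra hc
  rw [not_le] at hc
  set B : Set (Fin M → Bool) := {x : Fin M → Bool | ¬ ∃ p : MvPolynomial (Fin M) F,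
    (∀ v, p.degreeOf v ≤ 2) ∧
    (∀ x' : Fin M → Bool, MvPolynomial.eval (bp F x') p = if x' = x then 1 else 0) ∧
    ∀ z ∈ Z, MvPolynomial.eval z p = 0} with hB
  let L : (B → F) →ₗ[F] (Z → F) :=
    { toFun := fun f z => ∑ x : B, f x * MvPolynomial.eval (z : Fin M → F) (del (x : Fin M → Bool))
      map_add' := by
        intro f g
        funext z
        simp only [Pi.add_apply, add_mul, Finset.sum_add_distrib]
      map_smul' := by
        intro c f
        funext z
        simp only [Pi.smul_apply, smul_eq_mul, RingHom.id_apply, Finset.mul_sum, mul_assoc] }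
  have hrank : Module.finrank F (Z → F) < Module.finrank F (B → F) := by
    rw [Module.finrank_fintype_fun_eq_card, Module.finrank_fintype_fun_eq_card,
      Fintype.card_coe, ← Nat.card_eq_fintype_card, Nat.card_coe_set_eq]
    exact hc
  have hker := LinearMap.ker_ne_bot_of_finrank_lt (f := L) hrank
  obtain ⟨f, hf, hf0⟩ := Submodule.exists_mem_ne_zero_of_ne_bot hker
  rw [LinearMap.mem_ker] at hf
  obtain ⟨x, hx⟩ : ∃ x, f x ≠ 0 := by
    by_contra h
    push Not at h
    exact hf0 (funext h)
  have hbad : ¬ ∃ p : MvPolynomial (Fin M) F,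
    (∀ v, p.degreeOf v ≤ 2) ∧
    (∀ x' : Fin M → Bool, MvPolynomial.eval (bp F x') p = if x' = (x : Fin M → Bool) then 1 else 0) ∧
    ∀ z ∈ Z, MvPolynomial.eval z p = 0 := x.2
  refine hbad ⟨C (f x)⁻¹ * (∑ x' : B, C (f x') * del (x' : Fin M → Bool)) *
    del (x : Fin M → Bool), ?_, ?_, ?_⟩
  · intro v
    have h1 : MvPolynomial.degreeOf v
        (∑ x' : B, C (f x') * del (x' : Fin M → Bool) : MvPolynomial (Fin M) F) ≤ 1 := by
      refine (MvPolynomial.degreeOf_sum_le v _ _).trans ?_
      refine Finset.sup_le fun x' _ => ?_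
      exact (MvPolynomial.degreeOf_C_mul_le _ _ _).trans (degreeOf_del _ _)
    refine (MvPolynomial.degreeOf_mul_le _ _ _).trans ?_
    have h2 := degreeOf_del (F := F) (x : Fin M → Bool) v
    have h3 := (MvPolynomial.degreeOf_C_mul_le
      (∑ x' : B, C (f x') * del (x' : Fin M → Bool) : MvPolynomial (Fin M) F) v (f x)⁻¹).trans h1
    omega
  · intro x'
    rw [map_mul, map_mul, MvPolynomial.eval_C, eval_del_bp, map_sum]
    by_cases h : x' = x
    · rw [if_pos h, mul_one]
      have : ∑ y : B, MvPolynomial.eval (bp F x') (C (f y) * del (y : Fin M → Bool)) = f x := by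
        rw [Finset.sum_eq_single x]
        · rw [map_mul, MvPolynomial.eval_C, eval_del_bp, if_pos h, mul_one]
        · intro y _ hy
          rw [map_mul, eval_del_bp, if_neg, mul_zero]
          intro he
          exact hy (Subtype.ext (he.symm.trans h))
        · intro h'
          exact absurd (Finset.mem_univ x) h'
      rw [this]
      exact inv_mul_cancel₀ hx
    · rw [if_neg h, mul_zero]
  · intro z hz
    rw [map_mul, map_mul, map_sum]
    have : ∑ y : B, MvPolynomial.eval z (C (f y) * del (y : Fin M → Bool)) = 0 := by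
      have h1 := congrFun hf ⟨z, hz⟩
      refine Eq.trans ?_ h1
      refine Finset.sum_congr rfl fun y _ => ?_
      rw [map_mul, MvPolynomial.eval_C]
    rw [this, mul_zero, zero_mul]

namespace ALG_

lemma zipWith_ofFn {α β γ : Type} (g : α → β → γ) {m : ℕ} (a : Fin m → α) (b : Fin m → β) :
    List.zipWith g (List.ofFn a) (List.ofFn b) = List.ofFn fun i => g (a i) (b i) := by
  refine List.ext_getElem (by simp) ?_
  intro i h1 h2
  simp

lemma dl_ofFn {F : Type} [Field F] (x : List Bool) (z : Fin x.length → F) :
    dl x (List.ofFn z) = MvPolynomial.eval z (del fun v => x.get v) := by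
  unfold dl
  rw [eval_del, ← List.prod_ofFn]
  congr 1
  refine List.ext_getElem (by simp) ?_
  intro i h1 h2
  simp

end ALG_

theorem dlst : T_DL := by
  intro F _ x
  refine ⟨⟨del fun v => x.get v, fun v => (degreeOf_del _ v).trans (by norm_num), ?_⟩, ?_⟩
  · intro z
    exact dl_ofFn x z
  · intro x'
    rw [dl_ofFn, eval_del_bp]
    have : (x' = fun v => x.get v) ↔ List.ofFn x' = x := by
      constructor
      · intro h
        rw [h]
        exact List.ofFn_get x
      · intro h
        have h2 : List.ofFn x' = List.ofFn fun v => x.get v := by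
          rw [h]
          exact (List.ofFn_get x).symm
        exact List.ofFn_injective h2
    by_cases h : x' = fun v => x.get v
    · rw [if_pos h, if_pos (this.1 h)]
    · rw [if_neg h, if_neg fun h' => h (this.2 h')]

end Pool.Agent.RelA
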