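import Pool.Agent.RelA.Targets

/-!
# The questions are self-delimiting codes
-/

set_option autoImplicit false

namespace Pool.Agent.RelA

namespace AQ_

/-- unary blocks can be read off -/
lemma block_inj : ∀ (j j' : ℕ) (l l' : List Bool),
    List.replicate j true ++ false :: l = List.replicate j' true ++ false :: l' →
      j = j' ∧ l = l' := by
  intro j
  induction j with
  | zero =>
    intro j' l l' h
    cases j' with
    | zero => simpa using h
    | succ j' => simp [List.replicate_succ] at h
  | succ j ih =>
    intro j' l l' h
    cases j' with
    | zero => simp [List.replicate_succ] at h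
    | succ j' =>
      simp only [List.replicate_succ, List.cons_append, List.cons.injEq, true_and] at h
      obtain ⟨h1, h2⟩ := ih j' l l' h
      exact ⟨by rw [h1], h2⟩

lemma sd_nil : sd [] = [false] := rfl

lemma sd_cons (b : Bool) (u : List Bool) : sd (b :: u) = true :: b :: sd u := by
  simp [sd]

lemma sd_append_inj : ∀ (u u' l l' : List Bool), sd u ++ l = sd u' ++ l' → u = u' ∧ l = l' := by
  intro u
  induction u with
  | nil =>
    intro u' l l' h
    cases u' with
    | nil =>
      simp only [sd_nil, List.cons_append, List.nil_append, List.cons.injEq, true_and] at h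
      exact ⟨rfl, h⟩
    | cons b u' =>
      simp [sd_nil, sd_cons] at h
  | cons a u ih =>
    intro u' l l' h
    cases u' with
    | nil => simp [sd_nil, sd_cons] at h
    | cons b u' =>
      simp only [sd_cons, List.cons_append, List.cons.injEq, true_and] at h
      obtain ⟨h1, h2⟩ := h
      obtain ⟨h3, h4⟩ := ih u' l l' h2
      exact ⟨by rw [h1, h3], h4⟩

lemma sd_pos (u : List Bool) : 1 ≤ (sd u).length := by
  simp [sd]

lemma flat_length {α : Type} (c : α → List Bool) : ∀ z : List α,
    z.length ≤ (z.flatMap fun a => sd (c a)).length := by
  intro z
  induction z with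
  | nil => simp
  | cons a z ih =>
    simp only [List.flatMap_cons, List.length_append, List.length_cons]
    have := sd_pos (c a)
    omega

lemma flat_inj {α : Type} (c : α → List Bool) (hc : Function.Injective c) : ∀ z z' : List α,
    (z.flatMap fun a => sd (c a)) = (z'.flatMap fun a => sd (c a)) → z = z' := by
  intro z
  induction z with
  | nil =>
    intro z' h
    cases z' with
    | nil => rfl
    | cons a z' =>
      exfalso
      have h1 := congrArg List.length h
      simp only [List.flatMap_nil, List.length_nil, List.flatMap_cons, List.length_append] at h1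
      have := sd_pos (c a)
      omega
  | cons a z ih =>
    intro z' h
    cases z' with
    | nil =>
      exfalso
      have h1 := congrArg List.length h
      simp only [List.flatMap_nil, List.length_nil, List.flatMap_cons, List.length_append] at h1
      have := sd_pos (c a)
      omega
    | cons b z' =>
      simp only [List.flatMap_cons] at h
      obtain ⟨h1, h2⟩ := sd_append_inj _ _ _ _ h
      rw [hc h1, ih z' h2]

end AQ_

open AQ_

theorem aqlen : T_AQLEN := by
  intro Φ i j z
  have h := flat_length (Φ.code i) z
  simp only [aq, List.length_append, List.length_cons, List.length_replicate]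
  omega

theorem aqinj : T_AQINJ := by
  intro Φ i j i' j' z z' h
  unfold aq at h
  obtain ⟨h1, h2⟩ := block_inj _ _ _ _ h
  subst h1
  obtain ⟨h3, h4⟩ := block_inj _ _ _ _ h2
  exact ⟨rfl, h3, heq_of_eq (flat_inj (Φ.code i) (Φ.inj i) z z' h4)⟩

end Pool.Agent.RelA
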