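import Pool.Agent.RelA.Targets
import Pool.Agent.RelG.GEN

/-!
# The adversary against the density functions (job BET)
-/

set_option autoImplicit false

namespace Pool.Agent.RelA

open Pool.Agent.RelM (Lang Instr Cfg step run Halts Decides E1 E2 NP pair triple binVal outVal
  Approx IsDensity str pre IsNullCover Null1 Null2 wq sq0 sq1 Asks qb slice pr dst Nlim hq Thin)
open Pool.Agent.RelG (lv tm ln rk lg req beg)
open Classical

namespace BET_

variable {Φ : Fields}

lemma kc_isSome (K : Conf Φ) (κ n : ℕ) : (kc K κ n).isSome = (K κ n).isSome := by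
  unfold kc
  rw [Option.isSome_map]

lemma beg_length (K : RelG.Conf) (κ n : ℕ) : (beg K κ n).length = n := by
  unfold beg
  rw [List.length_map, List.length_range]

lemma ln_pow (n : ℕ) : 2 ^ ln n ≤ n + 1 := Nat.pow_log_le_self 2 (by omega)

lemma le_ln {e n : ℕ} : e ≤ ln n ↔ 2 ^ e ≤ n + 1 := by
  unfold ln
  exact Nat.le_log_iff_pow_le (by norm_num) (by omega)

lemma av_nonneg (G : Lang) (K : Conf Φ) (κ e : ℕ) (u : List Bool) : 0 ≤ av G K κ e u :=
  abs_nonneg _

lemma dens_le {D : List Bool → ℝ} (hD : IsDensity D) (u : List Bool) (b : Bool) :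
    D (u ++ [b]) ≤ 2 * D u := by
  have h1 := hD.avg u
  have h2 := hD.nonneg (u ++ [false])
  have h3 := hD.nonneg (u ++ [true])
  cases b
  · linarith
  · linarith

lemma dens_pow {D : List Bool → ℝ} (hD : IsDensity D) (K : RelG.Conf) (κ n : ℕ) :
    D (beg K κ n) ≤ 2 ^ n * D [] := by
  induction n with
  | zero => simp [beg]
  | succ n ih =>
    rw [RelG.GEN_.beg_succ]
    have h := dens_le hD (beg K κ n) (K κ n).isSome
    have : (2 : ℝ) ^ (n + 1) * D [] = 2 * (2 ^ n * D []) := by ring
    rw [this]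
    linarith

/-- The requirements that have behaved like density functions. -/
noncomputable def S (G : Lang) (K : Conf Φ) (κ n : ℕ) : Finset ℕ :=
  (Finset.range (ln n + 1)).filter fun e => (req e).1 = κ ∧ Cons G K κ e n

/-- The potential. -/
noncomputable def Phi (G : Lang) (K : Conf Φ) (κ n : ℕ) : ℝ :=
  ∑ e ∈ S G K κ n, av G K κ e (beg (kc K) κ n)

lemma cons_mono {G : Lang} {K : Conf Φ} {κ e n n' : ℕ} (h : Cons G K κ e n') (hn : n ≤ n') :
    Cons G K κ e n :=
  ⟨h.1, fun m hm hmn => h.2 m hm (lt_of_lt_of_le hmn hn)⟩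

lemma act_sub (G : Lang) (K : Conf Φ) (κ n : ℕ) : act G K κ n ⊆ S G K κ n := by
  intro e he
  unfold act at he
  unfold S
  rw [Finset.mem_filter] at he ⊢
  exact ⟨he.1, he.2.1, cons_mono he.2.2 (Nat.le_succ n)⟩

lemma geo (s : Finset ℕ) (c : ℕ) : ∑ e ∈ s, (1 / 2 : ℝ) ^ (e + (c + 1)) ≤ (1 / 2 : ℝ) ^ c := by
  have h1 : ∀ m : ℕ, ∑ e ∈ Finset.range m, (1 / 2 : ℝ) ^ (e + (c + 1)) ≤ (1 / 2 : ℝ) ^ c := by
    intro m
    have h2 : ∑ e ∈ Finset.range m, (1 / 2 : ℝ) ^ (e + (c + 1)) =
        (1 / 2 : ℝ) ^ c - (1 / 2 : ℝ) ^ (m + c) := by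
      induction m with
      | zero => simp
      | succ m ih =>
        rw [Finset.sum_range_succ, ih]
        ring
    rw [h2]
    have : (0 : ℝ) ≤ (1 / 2 : ℝ) ^ (m + c) := by positivity
    linarith
  obtain ⟨m, hm⟩ : ∃ m, s ⊆ Finset.range m := by
    obtain ⟨m, hm⟩ := s.exists_nat_subset_range
    exact ⟨m, hm⟩
  exact (Finset.sum_le_sum_of_subset_of_nonneg hm fun _ _ _ => by positivity).trans (h1 m)

/-- The rule takes the smaller one of the two sums. -/
lemma rule_le {G : Lang} {K : Conf Φ} {κ : ℕ} (hK : ∀ n, ((K κ n).isSome ↔ Rule G K κ n))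
    (n : ℕ) : ∑ e ∈ act G K κ n, av G K κ e (beg (kc K) κ (n + 1)) ≤
      Phi G K κ n + (1 / 2 : ℝ) ^ (n + 4) := by
  set w := beg (kc K) κ n with hw
  set a0 := ∑ e ∈ act G K κ n, av G K κ e (w ++ [false]) with ha0
  set a1 := ∑ e ∈ act G K κ n, av G K κ e (w ++ [true]) with ha1
  have h1 : ∑ e ∈ act G K κ n, av G K κ e (beg (kc K) κ (n + 1)) ≤ (a0 + a1) / 2 := by
    rw [RelG.GEN_.beg_succ, kc_isSome, ← hw]
    have hr := hK n
    unfold Rule at hr
    rw [← hw, ← ha0, ← ha1] at hr
    cases hb : (K κ n).isSome with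
    | false =>
      rw [← ha0]
      have : ¬ a1 < a0 := fun h => by
        have := hr.2 h
        rw [hb] at this
        exact Bool.noConfusion this
      linarith
    | true =>
      rw [← ha1]
      have := hr.1 hb
      linarith
  have h2 : a0 + a1 ≤ ∑ e ∈ act G K κ n, (2 * av G K κ e w + (1 / 2 : ℝ) ^ (n + e + 4)) := by
    rw [ha0, ha1, ← Finset.sum_add_distrib]
    apply Finset.sum_le_sum
    intro e he
    unfold act at he
    rw [Finset.mem_filter, Finset.mem_range] at he
    exact he.2.2.2 n (le_ln.1 (by omega)) (by omega)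
  have h3 : ∑ e ∈ act G K κ n, (2 * av G K κ e w + (1 / 2 : ℝ) ^ (n + e + 4)) ≤
      2 * Phi G K κ n + (1 / 2 : ℝ) ^ (n + 3) := by
    rw [Finset.sum_add_distrib, ← Finset.mul_sum]
    have h4 : ∑ e ∈ act G K κ n, av G K κ e w ≤ Phi G K κ n := by
      unfold Phi
      exact Finset.sum_le_sum_of_subset_of_nonneg (act_sub G K κ n)
        fun _ _ _ => av_nonneg _ _ _ _ _
    have h5 := geo (act G K κ n) (n + 3)
    have h6 : ∑ e ∈ act G K κ n, (1 / 2 : ℝ) ^ (n + e + 4) =
        ∑ e ∈ act G K κ n, (1 / 2 : ℝ) ^ (e + (n + 3 + 1)) := by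
      apply Finset.sum_congr rfl
      intro e _
      congr 1
      omega
    rw [h6]
    linarith
  have h7 : (1 / 2 : ℝ) ^ (n + 3) = 2 * (1 / 2 : ℝ) ^ (n + 4) := by ring
  linarith

lemma phi_bound {G : Lang} {K : Conf Φ} {κ : ℕ} (hK : ∀ n, ((K κ n).isSome ↔ Rule G K κ n))
    (n : ℕ) : Phi G K κ n ≤ ∑ e ∈ Finset.range (ln n + 1), (1 / 2 : ℝ) ^ (e + 4) +
      ∑ m ∈ Finset.range n, (1 / 2 : ℝ) ^ (m + 4) := by
  induction n with
  | zero =>
    have h0 : ln 0 = 0 := by simp [ln]
    rw [Finset.range_zero, Finset.sum_empty, add_zero, h0]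
    unfold Phi S
    rw [h0]
    calc ∑ e ∈ (Finset.range (0 + 1)).filter (fun e => (req e).1 = κ ∧ Cons G K κ e 0),
          av G K κ e (beg (kc K) κ 0)
        ≤ ∑ e ∈ (Finset.range (0 + 1)).filter (fun e => (req e).1 = κ ∧ Cons G K κ e 0),
          (1 / 2 : ℝ) ^ (e + 4) := by
          apply Finset.sum_le_sum
          intro e he
          rw [Finset.mem_filter, Finset.mem_range] at he
          have he0 : e = 0 := by omega
          subst he0
          exact he.2.2.1
      _ ≤ _ := Finset.sum_le_sum_of_subset_of_nonneg (Finset.filter_subset _ _)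
          fun _ _ _ => by positivity
  | succ n ih =>
    have hstep := rule_le hK n
    have hln1 : ln n ≤ ln (n + 1) := le_ln.2 ((ln_pow n).trans (by omega))
    have hln2 : ln (n + 1) ≤ ln n + 1 := by
      by_contra hcon
      push Not at hcon
      have h1 : ln n + 2 ≤ ln (n + 1) := hcon
      have h2 := le_ln.1 h1
      have h3 : ¬ (ln n + 1 ≤ ln n) := by omega
      rw [le_ln] at h3
      push Not at h3
      have h4 : 2 ^ (ln n + 2) = 2 * 2 ^ (ln n + 1) := by ring
      omega
    rw [Finset.sum_range_succ (fun m => (1 / 2 : ℝ) ^ (m + 4)) n]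
    rcases Nat.lt_or_ge (ln n) (ln (n + 1)) with hlt | hge
    · have hln : ln (n + 1) = ln n + 1 := by omega
      -- the new requirement
      have hsub : S G K κ (n + 1) ⊆ act G K κ n ∪
          ({ln n + 1} : Finset ℕ).filter (fun e => Cons G K κ e (n + 1)) := by
        intro e he
        unfold S at he
        rw [Finset.mem_filter, Finset.mem_range, hln] at he
        rw [Finset.mem_union]
        rcases Nat.lt_or_ge e (ln n + 1) with h1 | h1
        · left
          unfold act
          rw [Finset.mem_filter, Finset.mem_range]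
          exact ⟨h1, he.2⟩
        · right
          rw [Finset.mem_filter, Finset.mem_singleton]
          exact ⟨by omega, he.2.2⟩
      have hpow : n + 1 = 2 ^ (ln n + 1) - 1 := by
        have h2 := le_ln.1 (le_of_eq hln.symm)
        have h3 : ¬ (ln n + 1 ≤ ln n) := by omega
        rw [le_ln] at h3
        push Not at h3
        omega
      have hnew : ∑ e ∈ ({ln n + 1} : Finset ℕ).filter (fun e => Cons G K κ e (n + 1)),
          av G K κ e (beg (kc K) κ (n + 1)) ≤ (1 / 2 : ℝ) ^ (ln n + 1 + 4) := by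
        calc _ ≤ ∑ e ∈ ({ln n + 1} : Finset ℕ).filter (fun e => Cons G K κ e (n + 1)),
              (1 / 2 : ℝ) ^ (e + 4) := by
              apply Finset.sum_le_sum
              intro e he
              rw [Finset.mem_filter, Finset.mem_singleton] at he
              have h4 := he.2.1
              rw [he.1] at h4 ⊢
              rw [← hpow] at h4
              exact h4
          _ ≤ ∑ e ∈ ({ln n + 1} : Finset ℕ), (1 / 2 : ℝ) ^ (e + 4) :=
              Finset.sum_le_sum_of_subset_of_nonneg (Finset.filter_subset _ _)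
                fun _ _ _ => by positivity
          _ = _ := by rw [Finset.sum_singleton]
      have htot : Phi G K κ (n + 1) ≤
          ∑ e ∈ act G K κ n, av G K κ e (beg (kc K) κ (n + 1)) +
          ∑ e ∈ ({ln n + 1} : Finset ℕ).filter (fun e => Cons G K κ e (n + 1)),
            av G K κ e (beg (kc K) κ (n + 1)) := by
        unfold Phi
        refine (Finset.sum_le_sum_of_subset_of_nonneg hsub
          fun _ _ _ => av_nonneg _ _ _ _ _).trans ?_
        have := Finset.sum_union_inter (s₁ := act G K κ n)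
          (s₂ := ({ln n + 1} : Finset ℕ).filter (fun e => Cons G K κ e (n + 1)))
          (f := fun e => av G K κ e (beg (kc K) κ (n + 1)))
        have h5 : 0 ≤ ∑ e ∈ act G K κ n ∩
            ({ln n + 1} : Finset ℕ).filter (fun e => Cons G K κ e (n + 1)),
            av G K κ e (beg (kc K) κ (n + 1)) :=
          Finset.sum_nonneg fun _ _ => av_nonneg _ _ _ _ _
        linarith
      rw [hln, Finset.sum_range_succ (fun e => (1 / 2 : ℝ) ^ (e + 4)) (ln n + 1)]
      linarith
    · have hln : ln (n + 1) = ln n := by omega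
      have hsub : S G K κ (n + 1) ⊆ act G K κ n := by
        intro e he
        unfold S at he
        rw [Finset.mem_filter, Finset.mem_range, hln] at he
        unfold act
        rw [Finset.mem_filter, Finset.mem_range]
        exact he
      have htot : Phi G K κ (n + 1) ≤
          ∑ e ∈ act G K κ n, av G K κ e (beg (kc K) κ (n + 1)) := by
        unfold Phi
        exact Finset.sum_le_sum_of_subset_of_nonneg hsub fun _ _ _ => av_nonneg _ _ _ _ _
      rw [hln]
      linarith

lemma phi_le {G : Lang} {K : Conf Φ} {κ : ℕ} (hK : ∀ n, ((K κ n).isSome ↔ Rule G K κ n))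
    (n : ℕ) : Phi G K κ n ≤ 1 / 4 := by
  have h1 := phi_bound hK n
  have h2 := geo (Finset.range (ln n + 1)) 3
  have h3 := geo (Finset.range n) 3
  have h4 : (1 / 2 : ℝ) ^ 3 = 1 / 8 := by norm_num
  rw [h4] at h2 h3
  simp only [show (3 : ℕ) + 1 = 4 from rfl] at h2 h3
  linarith

end BET_

open BET_

theorem bet (hs : RelM.T_STAY) : T_BET := by
  intro Φ G K κ T hK hT P d hA hN
  obtain ⟨e, he⟩ := RelG.req_surj (κ, P)
  have he1 : (req e).1 = κ := by rw [he]
  have he2 : (req e).2 = P := by rw [he]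
  set k : ℕ := 2 ^ e + e + 4 with hk
  obtain ⟨hD, hD0, hcov⟩ := hN k
  -- the approximation
  have happ : ∀ u : List Bool, 2 ^ e ≤ u.length + 1 →
      |av G K κ e u - d k u| ≤ (1 / 2 : ℝ) ^ (u.length + e + 6) := by
    intro u hu
    obtain ⟨h1, h2⟩ := hA k (u.length + e + 6) u
    have h3 : run (ext G K) P (inp e u) (tm κ u.length) =
        run (ext G K) P (inp e u) (T (inp e u).length) := hs _ _ _ _ _ h1 (hT e u hu)
    unfold av
    rw [he2, h3]
    refine le_trans ?_ h2
    have h4 := abs_abs_sub_abs_le (outVal (run (ext G K) P (inp e u) (T (inp e u).length))) (d k u)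
    rw [abs_of_nonneg (hD.nonneg u)] at h4
    exact h4
  have hcons : ∀ n, Cons G K κ e n := by
    intro n
    have hp : 1 ≤ 2 ^ e := Nat.one_le_two_pow
    constructor
    · have h1 := dens_pow hD (kc K) κ (2 ^ e - 1)
      have h2 := happ (beg (kc K) κ (2 ^ e - 1)) (by rw [beg_length]; omega)
      rw [beg_length] at h2
      have h3 : (1 / 2 : ℝ) ^ (2 ^ e - 1 + e + 6) ≤ (1 / 2 : ℝ) ^ (e + 6) :=
        pow_le_pow_of_le_one (by norm_num) (by norm_num) (by omega)
      have h4 : (2 : ℝ) ^ (2 ^ e - 1) * d k [] ≤ (1 / 2 : ℝ) ^ (e + 5) := by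
        calc (2 : ℝ) ^ (2 ^ e - 1) * d k [] ≤ (2 : ℝ) ^ (2 ^ e - 1) * (1 / 2 : ℝ) ^ k :=
              mul_le_mul_of_nonneg_left hD0 (by positivity)
          _ = (2 : ℝ) ^ (2 ^ e - 1) * ((1 / 2 : ℝ) ^ (2 ^ e - 1) * (1 / 2 : ℝ) ^ (e + 5)) := by
              rw [← pow_add]
              congr 2
              omega
          _ = (1 / 2 : ℝ) ^ (e + 5) := by
              rw [← mul_assoc, ← mul_pow]
              norm_num
      have h5 := (abs_le.1 h2).2
      have h6 : (1 / 2 : ℝ) ^ (e + 5) + (1 / 2 : ℝ) ^ (e + 6) ≤ (1 / 2 : ℝ) ^ (e + 4) := by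
        have : (0 : ℝ) < (1 / 2 : ℝ) ^ (e + 4) := by positivity
        have e5 : (1 / 2 : ℝ) ^ (e + 5) = (1 / 2 : ℝ) ^ (e + 4) / 2 := by ring
        have e6 : (1 / 2 : ℝ) ^ (e + 6) = (1 / 2 : ℝ) ^ (e + 4) / 4 := by ring
        linarith
      linarith
    · intro m hm _
      have h1 := happ (beg (kc K) κ m) (by rw [beg_length]; exact hm)
      have h2 := happ (beg (kc K) κ m ++ [false]) (by
        rw [List.length_append, beg_length, List.length_singleton]
        omega)
      have h3 := happ (beg (kc K) κ m ++ [true]) (by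
        rw [List.length_append, beg_length, List.length_singleton]
        omega)
      rw [List.length_append, beg_length, List.length_singleton] at h2 h3
      rw [beg_length] at h1
      have h4 := hD.avg (beg (kc K) κ m)
      have a1 := (abs_le.1 h1).1
      have a2 := (abs_le.1 h2).2
      have a3 := (abs_le.1 h3).2
      have e1 : (1 / 2 : ℝ) ^ (m + e + 6) = (1 / 2 : ℝ) ^ (m + e + 4) / 4 := by ring
      have e2 : (1 / 2 : ℝ) ^ (m + 1 + e + 6) = (1 / 2 : ℝ) ^ (m + e + 4) / 8 := by ring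
      rw [e1] at a1
      rw [e2] at a2 a3
      have : (0 : ℝ) < (1 / 2 : ℝ) ^ (m + e + 4) := by positivity
      linarith
  obtain ⟨n, hn⟩ := hcov (lg (kc K) κ) rfl
  rw [RelG.GEN_.pre_lg] at hn
  rcases Nat.lt_or_ge (n + 1) (2 ^ e) with hlt | hge
  · have h1 := dens_pow hD (kc K) κ n
    have h2 : (2 : ℝ) ^ n * d k [] ≤ (2 : ℝ) ^ n * (1 / 2 : ℝ) ^ k :=
      mul_le_mul_of_nonneg_left hD0 (by positivity)
    have h3 : (2 : ℝ) ^ n * (1 / 2 : ℝ) ^ k = (1 / 2 : ℝ) ^ (k - n) := by
      have : k = n + (k - n) := by omega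
      rw [this, pow_add, ← mul_assoc, ← mul_pow, Nat.add_sub_cancel_left]
      norm_num
    have h4 : (1 / 2 : ℝ) ^ (k - n) < 1 :=
      pow_lt_one₀ (by norm_num) (by norm_num) (by omega)
    linarith
  · have h1 := happ (beg (kc K) κ n) (by rw [beg_length]; exact hge)
    rw [beg_length] at h1
    have h2 : av G K κ e (beg (kc K) κ n) ≤ Phi G K κ n := by
      unfold Phi
      apply Finset.single_le_sum (f := fun e => av G K κ e (beg (kc K) κ n))
        (fun _ _ => av_nonneg _ _ _ _ _)
      unfold S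
      rw [Finset.mem_filter, Finset.mem_range]
      exact ⟨Nat.lt_succ_of_le (le_ln.2 hge), he1, hcons n⟩
    have h3 := phi_le hK n
    have h4 := (abs_le.1 h1).1
    have h5 : (1 / 2 : ℝ) ^ (n + e + 6) ≤ (1 / 2 : ℝ) ^ 6 :=
      pow_le_pow_of_le_one (by norm_num) (by norm_num) (by omega)
    have h6 : (1 / 2 : ℝ) ^ 6 = 1 / 64 := by norm_num
    linarith

end Pool.Agent.RelA
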