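import Pool.Agent.RelA.Targets

/-!
# The configuration (job CONFA)
-/

set_option autoImplicit false

namespace Pool.Agent.RelA

open Pool.Agent.RelM (Lang Instr Cfg step run Halts Decides E1 E2 NP pair triple binVal outVal
  Approx IsDensity str pre IsNullCover Null1 Null2 wq sq0 sq1 Asks qb slice pr dst Nlim hq Thin)
open Pool.Agent.RelG (lv tm ln rk lg req beg)

namespace CONFA_

open Classical

/-- The free key and its functions. -/
noncomputable def nw {Φ : Fields} (hK : T_EKEY) (G : Lang) (K : Conf Φ) (κ n : ℕ) :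
    List Bool × (∀ i, List (Φ.F i) → Φ.F i) :=
  ((hK Φ G K κ n).choose, (hK Φ G K κ n).choose_spec.choose)

lemma nw_adm {Φ : Fields} (hK : T_EKEY) (G : Lang) (K : Conf Φ) (κ n : ℕ) :
    Adm G K κ n (nw hK G K κ n).1 (nw hK G K κ n).2 :=
  (hK Φ G K κ n).choose_spec.choose_spec

/-- The stages of the construction. -/
noncomputable def Kn {Φ : Fields} (hK : T_EKEY) (G : Lang) : ℕ → Conf Φ
  | 0 => fun _ _ => none
  | r + 1 => fun κ n =>
      if rk κ n = r then
        (if Rule G (Kn (Φ := Φ) hK G r) κ n then some (nw hK G (Kn hK G r) κ n) else none)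
      else Kn hK G r κ n

/-- The configuration. -/
noncomputable def KK {Φ : Fields} (hK : T_EKEY) (G : Lang) : Conf Φ :=
  fun κ n => Kn hK G (rk κ n + 1) κ n

lemma kn_none {Φ : Fields} (hK : T_EKEY) (G : Lang) (r κ n : ℕ) (h : r ≤ rk κ n) :
    Kn (Φ := Φ) hK G r κ n = none := by
  induction r with
  | zero => rfl
  | succ r ih =>
    have h1 : ¬ rk κ n = r := by omega
    simp only [Kn, if_neg h1]
    exact ih (by omega)

lemma kn_eq {Φ : Fields} (hK : T_EKEY) (G : Lang) (r κ n : ℕ) (h : rk κ n < r) :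
    Kn (Φ := Φ) hK G r κ n = KK hK G κ n := by
  induction r with
  | zero => omega
  | succ r ih =>
    by_cases h1 : rk κ n = r
    · unfold KK
      rw [h1]
    · have h2 : Kn (Φ := Φ) hK G (r + 1) κ n = Kn hK G r κ n := by
        simp only [Kn, if_neg h1]
      rw [h2]
      exact ih (by omega)

lemma kn_cut {Φ : Fields} (hK : T_EKEY) (G : Lang) (r : ℕ) :
    Kn (Φ := Φ) hK G r = cut r (KK hK G) := by
  funext κ n
  by_cases h : rk κ n < r
  · rw [kn_eq hK G r κ n h]
    simp only [cut, if_pos h]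
  · rw [kn_none hK G r κ n (by omega)]
    simp only [cut, if_neg h]

lemma cut_cut {Φ : Fields} (K : Conf Φ) (r r' : ℕ) (h : r' ≤ r) :
    cut r' (cut r K) = cut r' K := by
  funext κ n
  by_cases h1 : rk κ n < r'
  · have h2 : rk κ n < r := by omega
    simp only [cut, if_pos h1, if_pos h2]
  · simp only [cut, if_neg h1]

lemma kk_val {Φ : Fields} (hK : T_EKEY) (G : Lang) (κ n : ℕ) : KK (Φ := Φ) hK G κ n =
    if Rule G (Kn (Φ := Φ) hK G (rk κ n)) κ n then
      some (nw hK G (Kn hK G (rk κ n)) κ n) else none := by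
  have h : Kn (Φ := Φ) hK G (rk κ n + 1) κ n =
      if Rule G (Kn (Φ := Φ) hK G (rk κ n)) κ n then
        some (nw hK G (Kn hK G (rk κ n)) κ n) else none := by
    simp only [Kn, if_true]
  exact h

end CONFA_

open CONFA_ in
/-- The configuration exists. -/
theorem confa (hK : T_EKEY) : T_CONFA := by
  classical
  intro Φ G
  refine ⟨KK hK G, fun κ n => ⟨?_, ?_⟩⟩
  · rw [kk_val, kn_cut]
    by_cases h : Rule G (cut (rk κ n) (KK (Φ := Φ) hK G)) κ n
    · rw [if_pos h]
      exact ⟨fun _ => h, fun _ => rfl⟩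
    · rw [if_neg h]
      exact ⟨fun h' => absurd h' (by simp), fun h' => absurd h' h⟩
  · intro y Q hy
    rw [kk_val] at hy
    by_cases h : Rule G (Kn (Φ := Φ) hK G (rk κ n)) κ n
    · rw [if_pos h] at hy
      have hy' : nw hK G (Kn (Φ := Φ) hK G (rk κ n)) κ n = (y, Q) := Option.some.inj hy
      have hs := nw_adm hK G (Kn (Φ := Φ) hK G (rk κ n)) κ n
      rw [hy'] at hs
      refine ⟨hs.1, fun i => ⟨(hs.2 i).1, fun κ' n' hr z hz ha => ?_⟩⟩
      refine (hs.2 i).2 κ' n' hr z hz ?_
      rw [kn_cut, cut_cut _ _ _ hr]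
      exact ha
    · rw [if_neg h] at hy
      exact absurd hy (by simp)

end Pool.Agent.RelA
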