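import Pool.Agent.RelA.Defs
import Pool.Agent.RelG.Targets

/-!
# The oracles of the algebrization barrier
-/

set_option autoImplicit false

namespace Pool.Agent.RelA

open Pool.Agent.RelM (Lang Instr Cfg step run Halts Decides E1 E2 NP pair triple binVal outVal
  Approx IsDensity str pre IsNullCover Null1 Null2 wq sq0 sq1 Asks qb slice pr dst Nlim hq Thin)
open Pool.Agent.RelG (lv tm ln rk lg req beg)
open Classical

/-! ## Configurations -/

/-- A configuration: `K κ n = some (y, Q)` means that the word number `n` is in the language of the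
family `κ`, that its key is `y`, and that `Q i` is the polynomial function over the field number
`i` which stands for the word with this key in the extensions. -/
abbrev Conf (Φ : Fields) : Type :=
  ℕ → ℕ → Option (List Bool × (∀ i, List (Φ.F i) → Φ.F i))

/-- The keys of a configuration. -/
def kc {Φ : Fields} (K : Conf Φ) : RelG.Conf := fun κ n => (K κ n).map Prod.fst

/-- The part of a configuration with ranks less than `r`. -/
noncomputable def cut {Φ : Fields} (r : ℕ) (K : Conf Φ) : Conf Φ :=
  fun κ n => if rk κ n < r then K κ n else none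

/-- The configuration without keys. -/
def K0 (Φ : Fields) : Conf Φ := fun _ _ => none

/-! ## Extensions -/

/-- The multilinear polynomial which is `1` at the Boolean point `x` and `0` at all others, as a
function of the lists `z` of the same length. -/
def dl {F : Type} [Field F] (x : List Bool) (z : List F) : F :=
  (List.zipWith (fun b a => if b = true then a else 1 - a) x z).prod

/-- The polynomial function which stands for the word `x` in the extensions. -/
noncomputable def bump {Φ : Fields} (G : Lang) (K : Conf Φ) (i : ℕ) (x : List Bool)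
    (z : List (Φ.F i)) : Φ.F i :=
  if h : ∃ p : ℕ × ℕ × List Bool × (∀ i, List (Φ.F i) → Φ.F i),
      K p.1 p.2.1 = some (p.2.2.1, p.2.2.2) ∧ x = wq p.1 (str p.2.1) p.2.2.1
    then h.choose.2.2.2 i z
    else if RelG.orc G (kc K) x = true then dl x z else 0

/-- The value of the extension. -/
noncomputable def val {Φ : Fields} (G : Lang) (K : Conf Φ) (i : ℕ) (z : List (Φ.F i)) : Φ.F i :=
  ∑ x : Fin z.length → Bool, bump G K i (List.ofFn x) z

/-- The oracle which gives the values. -/
noncomputable def ext {Φ : Fields} (G : Lang) (K : Conf Φ) : Lang := fun q => decide (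
  ∃ (i j : ℕ) (z : List (Φ.F i)), q = aq Φ i j z ∧
    (sd (Φ.code i (val G K i z)))[j]? = some true)

/-- `Q` is a polynomial function in `m` variables, of degree at most `2` in each variable. -/
def IsP2 {F : Type} [Field F] (m : ℕ) (Q : List F → F) : Prop :=
  ∃ p : MvPolynomial (Fin m) F, (∀ v, p.degreeOf v ≤ 2) ∧
    ∀ z : Fin m → F, Q (List.ofFn z) = MvPolynomial.eval z p

/-- The Boolean point `x`. -/
def bp (F : Type) [Field F] {m : ℕ} (x : Fin m → Bool) : Fin m → F :=
  fun v => if x v = true then 1 else 0

/-- `Q` stands for the word `w`. -/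
def Stands {F : Type} [Field F] (w : List Bool) (Q : List F → F) : Prop :=
  IsP2 w.length Q ∧ ∀ x : Fin w.length → Bool,
    Q (List.ofFn (bp F x)) = if List.ofFn x = w then 1 else 0

/-! ## The rule -/

/-- The input for the requirement `e` and the beginning `u`: the number of the density function is
`2 ^ e + e + 4`, the precision is `|u| + e + 6`. -/
def inp (e : ℕ) (u : List Bool) : List Bool := triple (2 ^ e + e + 4) (u.length + e + 6) u

/-- The value of the requirement `e` at the beginning `u`. -/
noncomputable def av {Φ : Fields} (G : Lang) (K : Conf Φ) (κ e : ℕ) (u : List Bool) : ℝ :=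
  |outVal (run (ext G K) (req e).2 (inp e u) (tm κ u.length))|

/-- The requirement `e` has behaved like a density function up to the position `n`. -/
def Cons {Φ : Fields} (G : Lang) (K : Conf Φ) (κ e n : ℕ) : Prop :=
  av G K κ e (beg (kc K) κ (2 ^ e - 1)) ≤ (1 / 2 : ℝ) ^ (e + 4) ∧
  ∀ n', 2 ^ e ≤ n' + 1 → n' < n →
    av G K κ e (beg (kc K) κ n' ++ [false]) + av G K κ e (beg (kc K) κ n' ++ [true]) ≤
      2 * av G K κ e (beg (kc K) κ n') + (1 / 2 : ℝ) ^ (n' + e + 4)

/-- The requirements considered at the pair κ, n. -/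
noncomputable def act {Φ : Fields} (G : Lang) (K : Conf Φ) (κ n : ℕ) : Finset ℕ :=
  (Finset.range (ln n + 1)).filter fun e => (req e).1 = κ ∧ Cons G K κ e (n + 1)

/-- The bit number `n` of the family `κ` is set to `1`. -/
def Rule {Φ : Fields} (G : Lang) (K : Conf Φ) (κ n : ℕ) : Prop :=
  ∑ e ∈ act G K κ n, av G K κ e (beg (kc K) κ n ++ [true]) <
    ∑ e ∈ act G K κ n, av G K κ e (beg (kc K) κ n ++ [false])

/-- The point `z` over the field number `i` is asked in one of the runs for the pair κ', n'. -/
def Asked {Φ : Fields} (G : Lang) (K : Conf Φ) (κ' n' i : ℕ) (z : List (Φ.F i)) : Prop :=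
  ∃ (e : ℕ) (u : List Bool) (j s : ℕ), e ≤ ln n' ∧ (req e).1 = κ' ∧
    (u = beg (kc K) κ' n' ∨ ∃ b, u = beg (kc K) κ' n' ++ [b]) ∧ s < tm κ' (n' + 1) ∧
    Asks (ext G K) (req e).2 (inp e u) s (aq Φ i j z)

/-- The key `y` and the functions `Q` are admissible for the pair κ, n. -/
def Adm {Φ : Fields} (G : Lang) (K : Conf Φ) (κ n : ℕ) (y : List Bool)
    (Q : ∀ i, List (Φ.F i) → Φ.F i) : Prop :=
  y.length = lv κ (ln n) ∧ ∀ i, Stands (wq κ (str n) y) (Q i) ∧
    ∀ κ' n', rk κ' n' ≤ rk κ n → ∀ z : List (Φ.F i), z.length = (wq κ (str n) y).length →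
      Asked G (cut (rk κ' n') K) κ' n' i z → Q i z = 0

/-- The configuration `K` is built by the rules. -/
def Nice {Φ : Fields} (G : Lang) (K : Conf Φ) : Prop := ∀ κ n,
  ((K κ n).isSome ↔ Rule G (cut (rk κ n) K) κ n) ∧
  ∀ y Q, K κ n = some (y, Q) → Adm G K κ n y Q

/-! ## The second pair of oracles -/

/-- The machine `v = (P, j, k)` accepts `x` with the extension of the fixed part `G`. -/
def acc2 (Φ : Fields) (G : Lang) (v : List Instr × ℕ × ℕ) (x : List Bool) : Prop :=
  ∃ y : List Bool, y.length ≤ (x.length + 2) ^ v.2.1 ∧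
    (run (ext G (K0 Φ)) v.1 (pair x y) ((x.length + 2) ^ v.2.2)).st 1 = [true]

/-- The slices of length `n` of the first machines. -/
noncomputable def V2 (Φ : Fields) (G : Lang) (n : ℕ) : Set (Fin (2 ^ n) → Bool) :=
  {v | ∃ e ≤ n, 4 * qb (RelG.cd e) n ≤ 2 ^ n ∧
    v = slice (fun x => decide (acc2 Φ G (RelG.cd e) x)) n}

end Pool.Agent.RelA
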