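import Pool.Agent.RelM.Defs

/-!
# Algebraic extensions of oracles

The low-degree extensions of an oracle over finite fields, in the sense of Aaronson and Wigderson.
-/

set_option autoImplicit false

namespace Pool.Agent.RelA

open Pool.Agent.RelM

/-- A sequence of finite fields, with a code for every element of every field (the fields may be
all finite fields, up to isomorphism). -/
structure Fields : Type 1 where
  F : ℕ → Type
  fld : ∀ i, Field (F i)
  fin : ∀ i, Finite (F i)
  code : ∀ i, F i → List Bool
  inj : ∀ i, Function.Injective (code i)

instance (Φ : Fields) (i : ℕ) : Field (Φ.F i) := Φ.fld i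

instance (Φ : Fields) (i : ℕ) : Finite (Φ.F i) := Φ.fin i

/-- The word `u` in self-delimiting form: every bit is preceded by a `1`, and at the end there is
a `0`. -/
def sd (u : List Bool) : List Bool := u.flatMap (fun b => [true, b]) ++ [false]

/-- The question about the bit number `j` of the value at the point `z` over the field number
`i`. -/
def aq (Φ : Fields) (i j : ℕ) (z : List (Φ.F i)) : List Bool :=
  List.replicate i true ++ false :: (List.replicate j true ++ false ::
    z.flatMap fun a => sd (Φ.code i a))

/-- `B` is an extension of `A`: for every field of the sequence and every `m` there is a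
polynomial in `m` variables, of degree at most a constant in each variable, which agrees on
`{0,1}^m` with `A`; the oracle `B` gives the values of these polynomials, bit by bit. -/
def IsExt (Φ : Fields) (A B : Lang) : Prop :=
  ∃ (c : ℕ) (p : ∀ i m : ℕ, MvPolynomial (Fin m) (Φ.F i)),
    (∀ i m v, (p i m).degreeOf v ≤ c) ∧
    (∀ (i m : ℕ) (x : Fin m → Bool),
      MvPolynomial.eval (fun v => if x v = true then (1 : Φ.F i) else 0) (p i m) =
        if A (List.ofFn x) = true then 1 else 0) ∧
    ∀ q : List Bool, B q = true ↔ ∃ (i j m : ℕ) (z : Fin m → Φ.F i), q = aq Φ i j (List.ofFn z) ∧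
      (sd (Φ.code i (MvPolynomial.eval z (p i m))))[j]? = some true

end Pool.Agent.RelA
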