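import Pool.Agent.RelA.Targets
import Pool.Agent.RelG.KEY
import Pool.Agent.RelM.QRY
import Pool.Agent.RelM.LOC

/-!
# Job EKEY: free keys and polynomials by counting
-/

set_option autoImplicit false

namespace Pool.Agent.RelA

open Pool.Agent.RelM (Lang Instr Cfg step run Halts Decides E1 E2 NP pair triple binVal outVal
  Approx IsDensity str pre IsNullCover Null1 Null2 wq sq0 sq1 Asks qb slice pr dst Nlim hq Thin)
open Pool.Agent.RelG (lv tm ln rk lg req beg)
open Classical

namespace EKEY_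

lemma poly_lt (q : ℕ) (hq : 16 ≤ q) : 3 * (4 * q + 3) ^ 2 < 2 ^ q := by
  induction q, hq using Nat.le_induction with
  | base => norm_num
  | succ q hq ih =>
    have h1 : 3 * (4 * (q + 1) + 3) ^ 2 ≤ 2 * (3 * (4 * q + 3) ^ 2) := by nlinarith
    calc 3 * (4 * (q + 1) + 3) ^ 2 ≤ 2 * (3 * (4 * q + 3) ^ 2) := h1
      _ < 2 * 2 ^ q := by omega
      _ = 2 ^ (q + 1) := by ring

lemma count_lt (t : ℕ) (ht : 64 ≤ t) :
    t * 2 ^ (t / 4) * t * 3 * 2 ^ ((t + 1) / 2) < 2 ^ t := by
  have h1 : 3 * t ^ 2 < 2 ^ (t / 4) := by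
    have h := poly_lt (t / 4) (by omega)
    have h2 : t ≤ 4 * (t / 4) + 3 := by omega
    calc 3 * t ^ 2 ≤ 3 * (4 * (t / 4) + 3) ^ 2 := by gcongr
      _ < _ := h
  have h2 : 2 ^ (t / 4) * (2 ^ (t / 4) * 2 ^ ((t + 1) / 2)) ≤ 2 ^ t := by
    rw [← pow_add, ← pow_add]
    exact Nat.pow_le_pow_right (by norm_num) (by omega)
  calc t * 2 ^ (t / 4) * t * 3 * 2 ^ ((t + 1) / 2)
      = (3 * t ^ 2) * (2 ^ (t / 4) * 2 ^ ((t + 1) / 2)) := by ring
    _ < 2 ^ (t / 4) * (2 ^ (t / 4) * 2 ^ ((t + 1) / 2)) := by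
        exact Nat.mul_lt_mul_of_pos_right h1 (by positivity)
    _ ≤ 2 ^ t := h2

/-- The words on which the requirements are run. -/
def ub (K : RelG.Conf) (κ n : ℕ) : Option Bool → List Bool
  | none => beg K κ n
  | some b => beg K κ n ++ [b]

/-- `v` is asked at the step given by the parameters. -/
def Ak {Φ : Fields} (G : Lang) (K : Conf Φ) (p : ℕ × ℕ × ℕ × Option Bool × ℕ) (i j : ℕ)
    (z : List (Φ.F i)) : Prop :=
  Asks (ext G (cut (rk p.1 p.2.1) K)) (req p.2.2.1).2
    (inp p.2.2.1 (ub (kc (cut (rk p.1 p.2.1) K)) p.1 p.2.1 p.2.2.2.1)) p.2.2.2.2 (aq Φ i j z)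

/-- The point asked about at the step given by the parameters. -/
noncomputable def ph {Φ : Fields} (G : Lang) (K : Conf Φ) (p : ℕ × ℕ × ℕ × Option Bool × ℕ) :
    Option (Σ i, List (Φ.F i)) :=
  if h : ∃ (v : Σ i, List (Φ.F i)) (j : ℕ), Ak G K p v.1 j v.2 then some h.choose else none

lemma ph_eq (hI : T_AQINJ) {Φ : Fields} (G : Lang) (K : Conf Φ)
    (p : ℕ × ℕ × ℕ × Option Bool × ℕ) (i j : ℕ) (z : List (Φ.F i)) (h : Ak G K p i j z) :
    ph G K p = some ⟨i, z⟩ := by
  have hex : ∃ (v : Σ i, List (Φ.F i)) (j : ℕ), Ak G K p v.1 j v.2 := ⟨⟨i, z⟩, j, h⟩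
  unfold ph
  rw [dif_pos hex]
  obtain ⟨j', h'⟩ := hex.choose_spec
  have h1 := RelM.one _ _ _ _ _ _ h' h
  obtain ⟨h2, _, h4⟩ := hI Φ _ _ _ _ _ _ h1
  congr 1
  exact Sigma.ext h2 h4

/-- The parameters. -/
def par (t : ℕ) : Finset (ℕ × ℕ × ℕ × Option Bool × ℕ) :=
  Finset.range t ×ˢ Finset.range (2 ^ (t / 4)) ×ˢ Finset.range t ×ˢ Finset.univ ×ˢ
    Finset.range (2 ^ ((t + 1) / 2))

lemma par_card (t : ℕ) : (par t).card = t * 2 ^ (t / 4) * t * 3 * 2 ^ ((t + 1) / 2) := by
  unfold par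
  simp only [Finset.card_product, Finset.card_range, Finset.card_univ, Fintype.card_option,
    Fintype.card_bool]
  ring

/-- A point asked in a run for a pair of small rank is given by parameters. -/
lemma asked_mem (hLV : RelG.T_LV) (hI : T_AQINJ) {Φ : Fields} (G : Lang) (K : Conf Φ)
    (κ n κ' n' : ℕ) (hrk : rk κ' n' ≤ rk κ n) (i : ℕ) (z : List (Φ.F i))
    (ha : Asked G (cut (rk κ' n') K) κ' n' i z) :
    (some ⟨i, z⟩ : Option (Σ i, List (Φ.F i))) ∈ (par (lv κ (ln n))).image (ph G K) := by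
  obtain ⟨_, h2, h3, h4, _, _, h7⟩ := hLV
  set t := lv κ (ln n) with ht
  obtain ⟨e, u, j, s, he, hreq, hu, hs, ha⟩ := ha
  have hle : lv κ' (ln n') ≤ t := h7 κ' n' κ n hrk
  have hκ : κ' < t := by have := h3 κ' (ln n'); omega
  have h4' := h2 κ' (ln n')
  have hln : n' + 1 < 2 ^ (ln n' + 1) := by
    unfold ln
    exact Nat.lt_pow_succ_log_self (by norm_num) _
  have hn' : n' < 2 ^ (t / 4) := by
    have h5 : 2 ^ (ln n' + 1) ≤ 2 ^ (t / 4) :=
      Nat.pow_le_pow_right (by norm_num) (by omega)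
    omega
  have het : e < t := by omega
  have hst : s < 2 ^ ((t + 1) / 2) := by
    have h6 := h4 κ' n'
    have h8 : 2 ^ lv κ' (ln n') ≤ 2 ^ t := Nat.pow_le_pow_right (by norm_num) hle
    have h9 : 2 ^ t ≤ (2 ^ ((t + 1) / 2)) ^ 2 := by
      rw [← pow_mul]
      exact Nat.pow_le_pow_right (by norm_num) (by omega)
    have h10 : tm κ' (n' + 1) ≤ 2 ^ ((t + 1) / 2) := by
      by_contra hlt
      push Not at hlt
      have : (2 ^ ((t + 1) / 2)) ^ 2 < tm κ' (n' + 1) ^ 2 := Nat.pow_lt_pow_left hlt (by norm_num)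
      omega
    omega
  obtain ⟨w, hw⟩ : ∃ w : Option Bool, u = ub (kc (cut (rk κ' n') K)) κ' n' w := by
    rcases hu with hu | ⟨b, hu⟩
    · exact ⟨none, hu⟩
    · exact ⟨some b, hu⟩
  subst hw
  refine Finset.mem_image.2 ⟨(κ', n', e, w, s), ?_, ph_eq hI G K (κ', n', e, w, s) i j z ha⟩
  unfold par
  simp only [Finset.mem_product, Finset.mem_range, Finset.mem_univ]
  exact ⟨hκ, hn', het, trivial, hst⟩

/-- The word `w` as a Boolean point. -/
def wp (w : List Bool) (M : ℕ) : Fin M → Bool := fun v => w.getD v false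

lemma ofFn_getD {α : Type} (w : List α) (d : α) (M : ℕ) (h : w.length = M) :
    List.ofFn (fun v : Fin M => w.getD v d) = w := by
  subst h
  apply List.ext_getElem
  · simp
  · intro k h1 h2
    simp [List.getD_eq_getElem?_getD]

lemma ofFn_wp (w : List Bool) (M : ℕ) (h : w.length = M) : List.ofFn (wp w M) = w :=
  ofFn_getD w false M h

lemma getD_ofFn {α : Type} (M : ℕ) (z : Fin M → α) (d : α) (v : Fin M) :
    (List.ofFn z).getD v d = z v := by
  simp

lemma stands_of {F : Type} [Field F] (w : List Bool) (M : ℕ) (hM : w.length = M)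
    (p : MvPolynomial (Fin M) F) (hdeg : ∀ v, p.degreeOf v ≤ 2)
    (hval : ∀ x' : Fin M → Bool,
      MvPolynomial.eval (bp F x') p = if x' = wp w M then 1 else 0) :
    Stands w (fun z => MvPolynomial.eval (fun v : Fin M => z.getD v 0) p) := by
  subst hM
  refine ⟨⟨p, hdeg, fun z => ?_⟩, fun x => ?_⟩
  · simp only [getD_ofFn]
  · simp only [getD_ofFn]
    have h1 : (fun v => bp F x v) = bp F x := rfl
    rw [h1, hval x]
    have h2 : x = wp w w.length ↔ List.ofFn x = w := by
      constructor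
      · intro h
        rw [h, ofFn_wp w _ rfl]
      · intro h
        exact List.ofFn_injective (h.trans (ofFn_wp w _ rfl).symm)
    by_cases hx : x = wp w w.length
    · rw [if_pos hx, if_pos (h2.1 hx)]
    · rw [if_neg hx, if_neg (fun h => hx (h2.2 h))]

/-- The Boolean point `x` is bad for the set `Z`. -/
def Bad (F : Type) [Field F] (M : ℕ) (Z : Finset (Fin M → F)) : Set (Fin M → Bool) :=
  {x : Fin M → Bool | ¬ ∃ p : MvPolynomial (Fin M) F, (∀ v, p.degreeOf v ≤ 2) ∧
    (∀ x' : Fin M → Bool, MvPolynomial.eval (bp F x') p = if x' = x then 1 else 0) ∧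
    ∀ z ∈ Z, MvPolynomial.eval z p = 0}

end EKEY_

open EKEY_ in
theorem ekey (hA : T_ALG) (hI : T_AQINJ) (hLV : RelG.T_LV) : T_EKEY := by
  intro Φ G K κ n
  set t := lv κ (ln n) with ht
  have ht64 : 64 ≤ t := by have := hLV.2.2.1 κ (ln n); omega
  set M : ℕ := κ + 2 * (str n).length + t + 4 with hM
  have hlen : ∀ y : List Bool, y.length = t → (wq κ (str n) y).length = M := by
    intro y hy
    rw [RelM.wq_length, hy]
  -- the points
  set Z : ∀ i, Finset (Fin M → Φ.F i) := fun i => Set.Finite.toFinset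
    (Set.toFinite {z : Fin M → Φ.F i | ∃ κ' n', rk κ' n' ≤ rk κ n ∧
      Asked G (cut (rk κ' n') K) κ' n' i (List.ofFn z)}) with hZ
  have hZmem : ∀ i (z : Fin M → Φ.F i), z ∈ Z i ↔ ∃ κ' n', rk κ' n' ≤ rk κ n ∧
      Asked G (cut (rk κ' n') K) κ' n' i (List.ofFn z) := by
    intro i z
    simp only [hZ, Set.Finite.mem_toFinset, Set.mem_ofPred_eq]
  -- a good key
  have hgood : ∃ y : List Bool, y.length = t ∧ ∀ i, wp (wq κ (str n) y) M ∉ Bad (Φ.F i) M (Z i) := by
    by_contra hcon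
    push Not at hcon
    set Y : Finset (List Bool) := Finset.univ.image fun v : List.Vector Bool t => v.toList with hY
    have hYlen : ∀ y ∈ Y, y.length = t := by
      intro y hy
      obtain ⟨v, _, hv⟩ := Finset.mem_image.1 hy
      rw [← hv]; exact v.toList_length
    have hYcard : Y.card = 2 ^ t := RelG.KEY_.words_card t
    set f : List Bool → ℕ := fun y => if h : y.length = t then (hcon y h).choose else 0 with hf
    have hfbad : ∀ y ∈ Y, wp (wq κ (str n) y) M ∈ Bad (Φ.F (f y)) M (Z (f y)) := by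
      intro y hy
      have h1 : f y = (hcon y (hYlen y hy)).choose := by
        simp only [hf]
        rw [dif_pos (hYlen y hy)]
      rw [h1]
      exact (hcon y (hYlen y hy)).choose_spec
    have h1 : Y.card ≤ ∑ i ∈ Y.image f, (Z i).card := by
      rw [Finset.card_eq_sum_card_image f Y]
      refine Finset.sum_le_sum (fun i _ => ?_)
      have h2 : ((Y.filter fun y => f y = i).image fun y => wp (wq κ (str n) y) M).card =
          (Y.filter fun y => f y = i).card := by
        apply Finset.card_image_of_injOn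
        intro y hy y' hy' h
        have hy1 := hYlen y (Finset.mem_filter.1 hy).1
        have hy2 := hYlen y' (Finset.mem_filter.1 hy').1
        have h3 : wq κ (str n) y = wq κ (str n) y' := by
          rw [← ofFn_wp _ M (hlen y hy1), ← ofFn_wp _ M (hlen y' hy2)]
          exact congrArg List.ofFn h
        exact (RelM.wq_inj h3).2.2
      rw [← h2, ← Set.ncard_coe_finset]
      refine (Set.ncard_le_ncard ?_ (Set.toFinite _)).trans (hA (Φ.F i) M (Z i))
      intro x hx
      rw [Finset.mem_coe, Finset.mem_image] at hx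
      obtain ⟨y, hy, rfl⟩ := hx
      obtain ⟨hy1, hy2⟩ := Finset.mem_filter.1 hy
      have h4 := hfbad y hy1
      rw [hy2] at h4
      exact h4
    have h5 : ∑ i ∈ Y.image f, (Z i).card ≤ (par t).card := by
      rw [← Finset.card_sigma]
      refine le_trans ?_ (Finset.card_image_le (s := par t) (f := ph G K))
      refine Finset.card_le_card_of_injOn
        (fun v : Σ i, (Fin M → Φ.F i) => (some ⟨v.1, List.ofFn v.2⟩ : Option (Σ i, List (Φ.F i))))
        ?_ ?_
      · intro v hv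
        rw [Finset.mem_coe, Finset.mem_sigma] at hv
        obtain ⟨κ', n', hrk, ha⟩ := (hZmem v.1 v.2).1 hv.2
        exact asked_mem hLV hI G K κ n κ' n' hrk v.1 _ ha
      · rintro ⟨i, z⟩ _ ⟨i', z'⟩ _ h
        simp only [Option.some.injEq, Sigma.mk.injEq] at h
        obtain ⟨rfl, h⟩ := h
        have h6 := List.ofFn_injective (eq_of_heq h)
        rw [h6]
    have h7 := count_lt t ht64
    rw [← par_card] at h7
    omega
  obtain ⟨y, hy, hyg⟩ := hgood
  have hex : ∀ i, ∃ p : MvPolynomial (Fin M) (Φ.F i), (∀ v, p.degreeOf v ≤ 2) ∧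
      (∀ x' : Fin M → Bool, MvPolynomial.eval (bp (Φ.F i) x') p =
        if x' = wp (wq κ (str n) y) M then 1 else 0) ∧
      ∀ z ∈ Z i, MvPolynomial.eval z p = 0 := by
    intro i
    by_contra h
    exact hyg i h
  choose p hp1 hp2 hp3 using hex
  refine ⟨y, fun i z => MvPolynomial.eval (fun v : Fin M => z.getD v 0) (p i), hy, fun i =>
    ⟨stands_of _ M (hlen y hy) (p i) (hp1 i) (hp2 i), ?_⟩⟩
  intro κ' n' hrk z hz ha
  rw [hlen y hy] at hz
  have h1 : List.ofFn (fun v : Fin M => z.getD v 0) = z := ofFn_getD z 0 M hz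
  exact hp3 i _ ((hZmem i _).2 ⟨κ', n', hrk, by rw [h1]; exact ha⟩)

end Pool.Agent.RelA
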