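import Pool.Agent.RelA.Targets

/-!
# Job EXT: the oracle `ext G K` is a low-degree extension of `RelG.orc G (kc K)`
-/

set_option autoImplicit false

namespace Pool.Agent.RelA

open Pool.Agent.RelM (Lang Instr Cfg step run Halts Decides E1 E2 NP pair triple binVal outVal
  Approx IsDensity str pre IsNullCover Null1 Null2 wq sq0 sq1 Asks qb slice pr dst Nlim hq Thin)
open Pool.Agent.RelG (lv tm ln rk lg req beg)
open Classical

namespace EXT_

/-- `Stands` with the length given. -/
lemma stands_of {F : Type} [Field F] {w : List Bool} {Q : List F → F} (h : Stands w Q) (m : ℕ)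
    (hm : w.length = m) : IsP2 m Q ∧ ∀ x : Fin m → Bool,
      Q (List.ofFn (bp F x)) = if List.ofFn x = w then 1 else 0 := by
  subst hm
  exact h

/-- The value with the length given. -/
lemma val_of {Φ : Fields} (G : Lang) (K : Conf Φ) (i : ℕ) (L : List (Φ.F i)) (m : ℕ)
    (hm : L.length = m) : val G K i L = ∑ x : Fin m → Bool, bump G K i (List.ofFn x) L := by
  subst hm
  rfl

/-- Key words are in the oracle. -/
lemma orc_of_key {Φ : Fields} (G : Lang) (K : Conf Φ) {κ n : ℕ} {y : List Bool}
    {Q : ∀ i, List (Φ.F i) → Φ.F i} (h : K κ n = some (y, Q)) :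
    RelG.orc G (kc K) (wq κ (str n) y) = true := by
  simp only [RelG.orc, decide_eq_true_eq]
  refine Or.inl ⟨κ, n, y, rfl, ?_⟩
  simp only [kc, h, Option.map_some]

/-- Every bump is a polynomial function. -/
lemma bump_poly (hD : T_DL) (Φ : Fields) (G : Lang) (K : Conf Φ)
    (hK : ∀ κ n y Q, K κ n = some (y, Q) → ∀ i, Stands (wq κ (str n) y) (Q i)) (i m : ℕ)
    (x : Fin m → Bool) : ∃ p : MvPolynomial (Fin m) (Φ.F i), (∀ v, p.degreeOf v ≤ 2) ∧
      (∀ z : Fin m → Φ.F i, bump G K i (List.ofFn x) (List.ofFn z) = MvPolynomial.eval z p) ∧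
      ∀ x' : Fin m → Bool, bump G K i (List.ofFn x) (List.ofFn (bp (Φ.F i) x')) =
        if x' = x ∧ RelG.orc G (kc K) (List.ofFn x) = true then 1 else 0 := by
  have hlen : (List.ofFn x).length = m := List.length_ofFn
  by_cases h : ∃ p : ℕ × ℕ × List Bool × (∀ i, List (Φ.F i) → Φ.F i),
      K p.1 p.2.1 = some (p.2.2.1, p.2.2.2) ∧ List.ofFn x = wq p.1 (str p.2.1) p.2.2.1
  · have hb : ∀ L : List (Φ.F i), bump G K i (List.ofFn x) L = h.choose.2.2.2 i L := by
      intro L
      rw [bump, dif_pos h]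
    obtain ⟨h1, h2⟩ := h.choose_spec
    have h3 := hK _ _ _ _ h1 i
    have horc : RelG.orc G (kc K) (List.ofFn x) = true := by
      rw [h2]
      exact orc_of_key G K h1
    rw [← h2] at h3
    obtain ⟨⟨p, hp1, hp2⟩, h4⟩ := stands_of h3 m hlen
    refine ⟨p, hp1, fun z => ?_, fun x' => ?_⟩
    · rw [hb, hp2]
    · rw [hb, h4]
      simp only [horc, and_true, List.ofFn_inj]
  · by_cases ho : RelG.orc G (kc K) (List.ofFn x) = true
    · have hb : ∀ L : List (Φ.F i), bump G K i (List.ofFn x) L = dl (List.ofFn x) L := by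
        intro L
        rw [bump, dif_neg h, if_pos ho]
      obtain ⟨⟨p, hp1, hp2⟩, h4⟩ := stands_of (hD (Φ.F i) (List.ofFn x)) m hlen
      refine ⟨p, hp1, fun z => ?_, fun x' => ?_⟩
      · rw [hb, hp2]
      · rw [hb, h4]
        simp only [ho, and_true, List.ofFn_inj]
    · have hb : ∀ L : List (Φ.F i), bump G K i (List.ofFn x) L = 0 := by
        intro L
        rw [bump, dif_neg h, if_neg ho]
      refine ⟨0, fun v => ?_, fun z => ?_, fun x' => ?_⟩
      · rw [MvPolynomial.degreeOf_zero]
        exact Nat.zero_le 2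
      · rw [hb, map_zero]
      · rw [hb, if_neg]
        rintro ⟨-, h5⟩
        exact ho h5

lemma degreeOf_sum_le' {σ R ι : Type} [CommSemiring R] (v : σ) (s : Finset ι)
    (f : ι → MvPolynomial σ R) (N : ℕ) (h : ∀ a ∈ s, (f a).degreeOf v ≤ N) :
    (∑ a ∈ s, f a).degreeOf v ≤ N := by
  induction s using Finset.induction_on with
  | empty =>
    rw [Finset.sum_empty, MvPolynomial.degreeOf_zero]
    exact Nat.zero_le N
  | insert a s ha ih =>
    rw [Finset.sum_insert ha]
    refine (MvPolynomial.degreeOf_add_le v _ _).trans (max_le ?_ ?_)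
    · exact h a (Finset.mem_insert_self a s)
    · exact ih fun b hb => h b (Finset.mem_insert_of_mem hb)

end EXT_

open EXT_ in
theorem ext_isExt (hD : T_DL) : T_EXT := by
  intro Φ G K hK
  choose P hP1 hP2 hP3 using fun (i m : ℕ) (x : Fin m → Bool) => bump_poly hD Φ G K hK i m x
  have hval : ∀ (i m : ℕ) (z : Fin m → Φ.F i), val G K i (List.ofFn z) =
      MvPolynomial.eval z (∑ x : Fin m → Bool, P i m x) := by
    intro i m z
    rw [val_of G K i (List.ofFn z) m List.length_ofFn, map_sum]
    exact Finset.sum_congr rfl fun x _ => hP2 i m x z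
  refine ⟨2, fun i m => ∑ x : Fin m → Bool, P i m x, fun i m v => ?_, fun i m x => ?_, fun q => ?_⟩
  · exact degreeOf_sum_le' v _ _ 2 fun x _ => hP1 i m x v
  · have h1 : (fun v => if x v = true then (1 : Φ.F i) else 0) = bp (Φ.F i) x := rfl
    rw [h1, map_sum]
    have h2 : ∀ x' : Fin m → Bool, MvPolynomial.eval (bp (Φ.F i) x) (P i m x') =
        if x = x' then (if RelG.orc G (kc K) (List.ofFn x) = true then 1 else 0) else 0 := by
      intro x'
      rw [← hP2 i m x' (bp (Φ.F i) x), hP3]
      by_cases h3 : x = x'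
      · subst h3
        simp
      · rw [if_neg h3, if_neg (fun h => h3 h.1)]
    rw [Finset.sum_congr rfl (fun x' _ => h2 x'), Finset.sum_ite_eq, if_pos (Finset.mem_univ x)]
  · simp only [ext, decide_eq_true_eq]
    constructor
    · rintro ⟨i, j, z, hq, hz⟩
      have hz' : List.ofFn z.get = z := List.ofFn_get z
      refine ⟨i, j, z.length, z.get, ?_, ?_⟩
      · rw [hz']
        exact hq
      · rw [← hval, hz']
        exact hz
    · rintro ⟨i, j, m, z, hq, hz⟩
      refine ⟨i, j, List.ofFn z, hq, ?_⟩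
      rw [hval]
      exact hz

end Pool.Agent.RelA
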