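import Pool.Agent.RelA.Targets
import Pool.Agent.RelM.LOC

/-!
# The runs keep their values (job HIDA)
-/

set_option autoImplicit false

namespace Pool.Agent.RelA

open Pool.Agent.RelM (Lang Instr Cfg step run Halts Decides E1 E2 NP pair triple binVal outVal
  Approx IsDensity str pre IsNullCover Null1 Null2 wq sq0 sq1 Asks qb slice pr dst Nlim hq Thin)
open Pool.Agent.RelG (lv tm ln rk lg req beg)
open Classical

namespace HIDA_

lemma beg_len (K : RelG.Conf) (κ n : ℕ) : (beg K κ n).length = n := by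
  unfold beg
  rw [List.length_map, List.length_range]

lemma beg_cut {Φ : Fields} (hLV : RelG.T_LV) (K : Conf Φ) (κ n m r : ℕ) (hm : m ≤ n)
    (hr : rk κ n ≤ r) : beg (kc (cut r K)) κ m = beg (kc K) κ m := by
  unfold beg
  refine List.map_congr_left fun j hj => ?_
  have hj' : j < m := List.mem_range.1 hj
  have h1 : rk κ j < rk κ n := hLV.2.2.2.2.2.1 κ j n (lt_of_lt_of_le hj' hm)
  unfold kc cut
  rw [if_pos (lt_of_lt_of_le h1 hr)]

lemma cut_cut {Φ : Fields} (K : Conf Φ) (r₀ r : ℕ) (h : r₀ ≤ r) :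
    cut r₀ (cut r K) = cut r₀ K := by
  funext κ n
  unfold cut
  by_cases h1 : rk κ n < r₀
  · rw [if_pos h1, if_pos h1, if_pos (lt_of_lt_of_le h1 h)]
  · rw [if_neg h1, if_neg h1]

lemma cut_some {Φ : Fields} (K : Conf Φ) (r κ n : ℕ) (v) (h : cut r K κ n = some v) :
    K κ n = some v := by
  unfold cut at h
  split_ifs at h
  exact h

lemma tm_mono (κ l l' : ℕ) (h : l ≤ l') : tm κ l ≤ tm κ l' := by
  unfold tm
  split_ifs
  · exact Nat.pow_le_pow_right (by norm_num)
      (Nat.pow_le_pow_left (Nat.add_le_add_right (Nat.log_mono_right h) 2) _)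
  · exact Nat.pow_le_pow_left (by omega) _

lemma lt_ln (n : ℕ) : n + 1 < 2 ^ (ln n + 1) := by
  unfold ln
  exact Nat.lt_pow_succ_log_self (by norm_num) _

lemma ln_le (n : ℕ) : 2 ^ ln n ≤ n + 1 := by
  unfold ln
  exact Nat.pow_log_le_self 2 (by omega)

lemma bound (hLV : RelG.T_LV) (κ n : ℕ) : 5 * n + 15 + tm κ (n + 1) < 2 ^ lv κ (ln n) := by
  have h1 := hLV.2.1 κ (ln n)
  have h2 := hLV.2.2.2.1 κ n
  have h3 := lt_ln n
  set L := lv κ (ln n) with hL
  have h4 : 2 ^ (ln n + 5) ≤ 2 ^ (L - 1) := Nat.pow_le_pow_right (by norm_num) (by omega)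
  have h4' : 2 ^ (ln n + 5) = 2 ^ (ln n + 1) * 16 := by
    rw [show ln n + 5 = (ln n + 1) + 4 by ring, pow_add]
    norm_num
  have h5 : 2 ^ L = 2 ^ (L - 1) * 2 := by
    rw [← pow_succ]
    congr 1
    omega
  have h6 : tm κ (n + 1) ≤ 2 ^ (L - 1) := by
    have h7 : tm κ (n + 1) ^ 2 ≤ (2 ^ (L - 1)) ^ 2 := by
      refine h2.trans ?_
      rw [← pow_mul]
      exact Nat.pow_le_pow_right (by norm_num) (by omega)
    exact (Nat.pow_le_pow_iff_left (by norm_num)).mp h7
  omega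

lemma inp_len (e : ℕ) (u : List Bool) :
    (inp e u).length = 2 ^ e + 2 * e + 2 * u.length + 12 := by
  unfold inp triple
  simp only [List.length_append, List.length_replicate, List.length_cons]
  ring

lemma inp_le (n e : ℕ) (u : List Bool) (he : e ≤ ln n) (hu : u.length ≤ n + 1) :
    (inp e u).length ≤ 5 * n + 15 := by
  rw [inp_len]
  have h1 : 2 ^ e ≤ n + 1 := (Nat.pow_le_pow_right (by norm_num) he).trans (ln_le n)
  have h2 : e < 2 ^ e := Nat.lt_two_pow_self
  omega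

/-- The run is the same for the oracle of every configuration between `cut (rk κ n) K` and `K`. -/
lemma run_eq (hV : T_VAL) (hL : T_AQLEN) (hLV : RelG.T_LV) {Φ : Fields} (G : Lang) (K : Conf Φ)
    (hK : Nice G K) (κ n e : ℕ) (u : List Bool) (he : e ≤ ln n) (hκ : (req e).1 = κ)
    (hu : u = beg (kc K) κ n ∨ ∃ b, u = beg (kc K) κ n ++ [b]) (K' : Conf Φ)
    (h1 : cut (rk κ n) K' = cut (rk κ n) K)
    (h2 : ∀ κ₁ n₁ v, K' κ₁ n₁ = some v → K κ₁ n₁ = some v) :
    ∀ s ≤ tm κ u.length, run (ext G K') (req e).2 (inp e u) s =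
      run (ext G (cut (rk κ n) K)) (req e).2 (inp e u) s := by
  have hul : u.length ≤ n + 1 := by
    rcases hu with rfl | ⟨b, rfl⟩
    · rw [beg_len]; omega
    · rw [List.length_append, beg_len, List.length_singleton]
  refine RelM.loc (ext G (cut (rk κ n) K)) (ext G K') (req e).2 (inp e u) (tm κ u.length)
    fun s hs q hq => ?_
  have hs' : s < tm κ (n + 1) := lt_of_lt_of_le hs (tm_mono κ _ _ hul)
  have hql : q.length < 2 ^ lv κ (ln n) := by
    have h3 := RelM.len _ _ _ _ _ hq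
    have h4 := inp_le n e u he hul
    have h5 := bound hLV κ n
    omega
  have hval : ∀ (i j : ℕ) (z : List (Φ.F i)), q = aq Φ i j z →
      val G (cut (rk κ n) K) i z = val G K' i z := by
    intro i j z hqz
    rw [← h1]
    refine hV Φ G K' (rk κ n) i z ?_ ?_
    · intro κ₁ n₁ y Q hr hKy hlen
      have hadm := (hK κ₁ n₁).2 y Q (h2 κ₁ n₁ _ hKy)
      refine (hadm.2 i).2 κ n hr z hlen.symm ⟨e, u, j, s, he, hκ, ?_, hs', ?_⟩
      · rw [beg_cut hLV K κ n n _ le_rfl le_rfl]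
        exact hu
      · rw [← hqz]
        exact hq
    · intro κ₁ n₁ hr
      have h5 : 2 ^ lv κ (ln n) ≤ 2 ^ lv κ₁ (ln n₁) :=
        Nat.pow_le_pow_right (by norm_num) (hLV.2.2.2.2.2.2 κ n κ₁ n₁ hr)
      have h6 := hL Φ i j z
      rw [← hqz] at h6
      omega
  unfold ext
  congr 1
  refine propext ?_
  constructor
  · rintro ⟨i, j, z, hqz, h⟩
    refine ⟨i, j, z, hqz, ?_⟩
    rw [← hval i j z hqz]
    exact h
  · rintro ⟨i, j, z, hqz, h⟩
    refine ⟨i, j, z, hqz, ?_⟩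
    rw [hval i j z hqz]
    exact h

end HIDA_

open HIDA_

theorem hida (hV : T_VAL) (hL : T_AQLEN) (hLV : RelG.T_LV) : T_HIDA := by
  intro Φ G K hK κ n e u he hκ hu r hr
  unfold av
  rw [run_eq hV hL hLV G K hK κ n e u he hκ hu (cut r K) (cut_cut K _ _ hr)
      (fun κ₁ n₁ v => cut_some K r κ₁ n₁ v) _ le_rfl,
    run_eq hV hL hLV G K hK κ n e u he hκ hu K rfl (fun κ₁ n₁ v h => h) _ le_rfl]

theorem rulea (hV : T_VAL) (hL : T_AQLEN) (hLV : RelG.T_LV) : T_RULEA := by
  intro Φ G K hK κ n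
  have hb : ∀ m ≤ n, beg (kc (cut (rk κ n) K)) κ m = beg (kc K) κ m :=
    fun m hm => beg_cut hLV K κ n m _ hm le_rfl
  have key : ∀ (e m : ℕ) (u : List Bool), (req e).1 = κ → m ≤ n → e ≤ ln m →
      (u = beg (kc K) κ m ∨ ∃ b, u = beg (kc K) κ m ++ [b]) →
      av G (cut (rk κ n) K) κ e u = av G K κ e u := by
    intro e m u hκ hm he hu
    refine hida hV hL hLV Φ G K hK κ m e u he hκ hu _ ?_
    rcases hm.lt_or_eq with h | h
    · exact (hLV.2.2.2.2.2.1 κ m n h).le
    · rw [h]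
  have hle : ∀ e m : ℕ, 2 ^ e ≤ m + 1 → e ≤ ln m := by
    intro e m h
    unfold RelG.ln
    exact Nat.le_log_of_pow_le (by norm_num) h
  have hcons : ∀ e, (req e).1 = κ → e ≤ ln n →
      (Cons G (cut (rk κ n) K) κ e (n + 1) ↔ Cons G K κ e (n + 1)) := by
    intro e hκ he
    have h2e : 2 ^ e ≤ n + 1 := (Nat.pow_le_pow_right (by norm_num) he).trans (ln_le n)
    have hpos : 1 ≤ 2 ^ e := Nat.one_le_two_pow
    unfold Cons
    refine and_congr ?_ ?_
    · have hm : 2 ^ e - 1 ≤ n := by omega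
      rw [hb _ hm, key e (2 ^ e - 1) _ hκ hm (hle e _ (by omega)) (Or.inl rfl)]
    · refine forall_congr' fun n' => forall_congr' fun h1 => forall_congr' fun h2 => ?_
      have hm : n' ≤ n := by omega
      have he' : e ≤ ln n' := hle e n' h1
      rw [hb n' hm, key e n' _ hκ hm he' (Or.inl rfl),
        key e n' _ hκ hm he' (Or.inr ⟨false, rfl⟩), key e n' _ hκ hm he' (Or.inr ⟨true, rfl⟩)]
  have hact : act G (cut (rk κ n) K) κ n = act G K κ n := by
    unfold act
    refine Finset.filter_congr fun e he => ?_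
    have he' : e ≤ ln n := Nat.lt_succ_iff.1 (Finset.mem_range.1 he)
    refine and_congr_right fun hκ => hcons e hκ he'
  have hsum : ∀ b : Bool,
      ∑ e ∈ act G K κ n, av G (cut (rk κ n) K) κ e (beg (kc K) κ n ++ [b]) =
        ∑ e ∈ act G K κ n, av G K κ e (beg (kc K) κ n ++ [b]) := by
    intro b
    refine Finset.sum_congr rfl fun e he => ?_
    unfold act at he
    rw [Finset.mem_filter, Finset.mem_range] at he
    exact key e n _ he.2.1 le_rfl (Nat.lt_succ_iff.1 he.1) (Or.inr ⟨b, rfl⟩)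
  rw [(hK κ n).1]
  unfold Rule
  rw [hact, hb n le_rfl, hsum true, hsum false]

end Pool.Agent.RelA
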