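import Pool.Agent.RelA.Targets
import Pool.Agent.RelM.MAIN2

/-!
# Assembly
-/

set_option autoImplicit false

namespace Pool.Agent.RelA

open Pool.Agent.RelM (Lang Instr Cfg step run Halts Decides E1 E2 NP pair triple binVal outVal
  Approx IsDensity str pre IsNullCover Null1 Null2 wq sq0 sq1 Asks qb slice pr dst Nlim hq Thin)
open Pool.Agent.RelG (lv tm ln rk lg req beg)

theorem main1_of (hEXT : T_EXT) (hCONF : T_CONFA) (hRULE : T_RULEA) (hBET : T_BET)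
    (hT1 : T_TIME1) (hT2 : T_TIME2) (hNPG : RelG.T_NPG) (hE1G : RelG.T_E1G)
    (hE2G : RelG.T_E2G) : T_MAIN1 := by
  intro Φ
  set G : Lang := fun _ => false with hG
  obtain ⟨K, hK⟩ := hCONF Φ G
  have hrule := hRULE Φ G K hK
  have hlen : ∀ κ n y, kc K κ n = some y → y.length = lv κ (ln n) := by
    intro κ n y h
    unfold kc at h
    rw [Option.map_eq_some_iff] at h
    obtain ⟨⟨y', Q⟩, h1, h2⟩ := h
    obtain rfl : y' = y := h2
    exact ((hK κ n).2 y' Q h1).1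
  refine ⟨RelG.orc G (kc K), ext G K, ?_, ?_, ?_⟩
  · exact hEXT Φ G K fun κ n y Q h i => (((hK κ n).2 y Q h).2 i).1
  · rintro ⟨d, hd, P, c, hP⟩
    refine hBET Φ G K (2 * (4 * c) + 1) (fun l => (l + 2) ^ c) (hrule _) (hT1 c) P d hP ?_
    refine hd.mono ?_
    rw [Set.singleton_subset_iff]
    exact ⟨hNPG G (kc K) hlen _, hE1G G (kc K) (4 * c)⟩
  · rintro ⟨d, hd, P, c, hP⟩
    refine hBET Φ G K (2 * (4 * c)) (fun l => 2 ^ ((Nat.log 2 l + 2) ^ c)) (hrule _) (hT2 c) P d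
      hP ?_
    refine hd.mono ?_
    rw [Set.singleton_subset_iff]
    exact ⟨hNPG G (kc K) hlen _, hE2G G (kc K) (4 * c)⟩

theorem main2_of (hEXT : T_EXT) (hNG : T_NULLGEN) (hL : T_V2LOC) (hT : T_V2THIN)
    (hGOOD : RelG.T_GOOD) (hOTT : RelG.T_OTT) : T_MAIN2 := by
  intro Φ
  obtain ⟨H, hH⟩ := hNG (V2 Φ) (hL Φ) (hT Φ)
  refine ⟨RelG.orc H (kc (K0 Φ)), ext H (K0 Φ), ?_, ?_⟩
  · refine hEXT Φ H (K0 Φ) fun κ n y Q h => ?_
    exact absurd h (by simp [K0])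
  · refine hH _ (hOTT H (kc (K0 Φ))) _ ?_
    rintro A ⟨P, j, k, hPA⟩ N
    obtain ⟨e, he⟩ := RelG.cd_surj (P, j, k)
    obtain ⟨n₀, hn₀⟩ := hGOOD e
    refine ⟨max N (max e n₀), le_max_left _ _, e, ?_, ?_, ?_⟩
    · exact le_trans (le_max_left _ _) (le_max_right _ _)
    · exact (hn₀ _ (le_trans (le_max_right _ _) (le_max_right _ _))).1
    · rw [he]
      congr 1
      funext x
      have h := (hPA x).2
      rw [Bool.eq_iff_iff, h]
      simp [acc2]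

end Pool.Agent.RelA
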