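import Pool.Agent.RelA.Targets
import Pool.Agent.RelM.HFIX
import Pool.Agent.RelM.LOC
import Pool.Agent.RelM.DSTAR
import Pool.Agent.RelM.READ

/-!
# Null covers in general (job NULLGEN)
-/

set_option autoImplicit false

namespace Pool.Agent.RelA

open Pool.Agent.RelM (Lang Instr Cfg step run Halts Decides E1 E2 NP pair triple binVal outVal
  Approx IsDensity str pre IsNullCover Null1 Null2 wq sq0 sq1 Asks qb slice pr dst Nlim hq Thin)
open Pool.Agent.RelM.HFIX_ (block_inj triple_inj hq_inj triple_length hq_length)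
open Set Classical

namespace NULLGEN_

/-- Families of sets of slices. -/
abbrev Fam : Type := Lang → (n : ℕ) → Set (Fin (2 ^ n) → Bool)

/-- The numerator of the approximation. -/
noncomputable def num (V : Fam) (G : Lang) (k r : ℕ) (w : List Bool) : ℕ :=
  ⌊(2 : ℝ) ^ (r + 1) * ∑ n ∈ Finset.Icc (k + 1) (Nlim r w), pr (V G n) w⌋₊

/-- The bits of the numerators of the approximations, for the fixed part `G`. -/
noncomputable def bitsOf (V : Fam) (G : Lang) : Lang := fun u => decide (
  (∃ j k r w, u = hq false false j k r w ∧ j < Nat.size (num V G k r w)) ∨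
  (∃ j k r w, u = hq false true j k r w ∧ Nat.testBit (num V G k r w) j = true) ∨
  (∃ j k r w, u = hq true false j k r w ∧ j < r + 1))

/-- The fixed part of the oracle for words of length less than `L`. -/
noncomputable def Hn (V : Fam) : ℕ → Lang
  | 0 => fun _ => false
  | L + 1 => fun u => if u.length = L then bitsOf V (Hn V L) u else Hn V L u

/-- The fixed part of the oracle. -/
noncomputable def H (V : Fam) : Lang := fun u => Hn V (u.length + 1) u

/-- Locality of the family. -/
def Loc (V : Fam) : Prop := ∀ (G G' : Lang) (n : ℕ),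
  (∀ u : List Bool, 4 * (u.length + 2) ≤ 2 ^ n → G u = G' u) → V G n = V G' n

lemma num_congr {V : Fam} (hV : Loc V) {G G' : Lang} (k r : ℕ) (w : List Bool)
    (hG : ∀ u : List Bool, u.length ≤ r + w.length → G u = G' u) :
    num V G k r w = num V G' k r w := by
  have : ∑ n ∈ Finset.Icc (k + 1) (Nlim r w), pr (V G n) w =
      ∑ n ∈ Finset.Icc (k + 1) (Nlim r w), pr (V G' n) w := by
    refine Finset.sum_congr rfl fun n hn => ?_
    rw [Finset.mem_Icc] at hn
    rw [hV G G' n fun u hu => hG u ?_]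
    have h5 : 2 ^ n ≤ 2 ^ Nlim r w := Nat.pow_le_pow_right (by norm_num) hn.2
    have h6 : 2 ^ Nat.log 2 (w.length + r + 2) ≤ w.length + r + 2 :=
      Nat.pow_log_le_self 2 (by omega)
    unfold Nlim at h5
    rw [pow_succ] at h5
    omega
  unfold num
  rw [this]

/-- The bits depend only on the shorter words. -/
lemma bloc {V : Fam} (hV : Loc V) (G G' : Lang) (u : List Bool)
    (hu : ∀ u' : List Bool, u'.length < u.length → G u' = G' u') :
    bitsOf V G u = bitsOf V G' u := by
  have key : ∀ (a b : Bool) (j k r : ℕ) (w : List Bool), u = hq a b j k r w →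
      num V G k r w = num V G' k r w := by
    intro a b j k r w h
    refine num_congr hV k r w fun u' hu' => hu u' ?_
    rw [h, hq_length]
    omega
  unfold bitsOf
  rw [decide_eq_decide]
  refine or_congr ?_ (or_congr ?_ Iff.rfl)
  · refine exists_congr fun j => exists_congr fun k => exists_congr fun r =>
      exists_congr fun w => and_congr_right fun h => ?_
    rw [key _ _ _ _ _ _ h]
  · refine exists_congr fun j => exists_congr fun k => exists_congr fun r =>
      exists_congr fun w => and_congr_right fun h => ?_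
    rw [key _ _ _ _ _ _ h]

lemma Hn_eq (V : Fam) (u : List Bool) : ∀ L : ℕ, u.length < L → Hn V L u = H V u := by
  intro L
  induction L with
  | zero => intro h; omega
  | succ L ih =>
    intro h
    by_cases hL : u.length = L
    · unfold H
      rw [hL]
    · have : Hn V (L + 1) u = Hn V L u := by
        rw [Hn]
        exact if_neg hL
      rw [this]
      exact ih (by omega)

theorem hfix {V : Fam} (hV : Loc V) (u : List Bool) : H V u = bitsOf V (H V) u := by
  have h1 : H V u = bitsOf V (Hn V u.length) u := by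
    unfold H
    rw [Hn]
    exact if_pos rfl
  rw [h1]
  exact bloc hV _ _ u fun u' hu' => Hn_eq V u' _ hu'

theorem bits (V : Fam) (G : Lang) (j k r : ℕ) (w : List Bool) :
    (bitsOf V G (hq false false j k r w) = true ↔ j < Nat.size (num V G k r w)) ∧
    (bitsOf V G (hq false true j k r w) = true ↔ Nat.testBit (num V G k r w) j = true) ∧
    (bitsOf V G (hq true false j k r w) = true ↔ j < r + 1) := by
  unfold bitsOf
  refine ⟨?_, ?_, ?_⟩
  · rw [decide_eq_true_eq]
    constructor
    · rintro (⟨j', k', r', w', h, h'⟩ | ⟨j', k', r', w', h, h'⟩ | ⟨j', k', r', w', h, h'⟩)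
      · obtain ⟨-, -, rfl, rfl, rfl, rfl⟩ := hq_inj h
        exact h'
      · obtain ⟨-, h2, -⟩ := hq_inj h
        exact absurd h2 (by decide)
      · obtain ⟨h2, -⟩ := hq_inj h
        exact absurd h2 (by decide)
    · intro h
      exact Or.inl ⟨j, k, r, w, rfl, h⟩
  · rw [decide_eq_true_eq]
    constructor
    · rintro (⟨j', k', r', w', h, h'⟩ | ⟨j', k', r', w', h, h'⟩ | ⟨j', k', r', w', h, h'⟩)
      · obtain ⟨-, h2, -⟩ := hq_inj h
        exact absurd h2 (by decide)
      · obtain ⟨-, -, rfl, rfl, rfl, rfl⟩ := hq_inj h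
        exact h'
      · obtain ⟨h2, -⟩ := hq_inj h
        exact absurd h2 (by decide)
    · intro h
      exact Or.inr (Or.inl ⟨j, k, r, w, rfl, h⟩)
  · rw [decide_eq_true_eq]
    constructor
    · rintro (⟨j', k', r', w', h, h'⟩ | ⟨j', k', r', w', h, h'⟩ | ⟨j', k', r', w', h, h'⟩)
      · obtain ⟨h2, -⟩ := hq_inj h
        exact absurd h2 (by decide)
      · obtain ⟨h2, -⟩ := hq_inj h
        exact absurd h2 (by decide)
      · obtain ⟨-, -, rfl, rfl, rfl, rfl⟩ := hq_inj h
        exact h'
    · intro h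
      exact Or.inr (Or.inr ⟨j, k, r, w, rfl, h⟩)

theorem numsize (V : Fam) (G : Lang) (k r : ℕ) (w : List Bool) :
    Nat.size (num V G k r w) ≤ 2 * (triple k r w).length + 4 := by
  rw [Nat.size_le]
  have h1 : ∑ n ∈ Finset.Icc (k + 1) (Nlim r w), pr (V G n) w ≤ (Nlim r w : ℝ) := by
    refine (Finset.sum_le_card_nsmul _ _ 1 fun n _ => (Pool.Agent.RelM.prr n (V G n) w).2).trans ?_
    rw [Nat.card_Icc, nsmul_eq_mul, mul_one]
    exact_mod_cast (by omega : Nlim r w + 1 - (k + 1) ≤ Nlim r w)
  have h2 : num V G k r w ≤ 2 ^ (r + 1) * Nlim r w := by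
    unfold num
    refine Nat.floor_le_of_le ?_
    push_cast
    exact mul_le_mul_of_nonneg_left h1 (by positivity)
  have h3 : Nlim r w < 2 ^ (w.length + r + 3) := by
    have h4 : Nat.log 2 (w.length + r + 2) ≤ w.length + r + 2 := Nat.log_le_self _ _
    have h5 : w.length + r + 3 < 2 ^ (w.length + r + 3) := Nat.lt_two_pow_self
    unfold Nlim
    omega
  calc num V G k r w ≤ 2 ^ (r + 1) * Nlim r w := h2
    _ < 2 ^ (r + 1) * 2 ^ (w.length + r + 3) :=
      Nat.mul_lt_mul_of_pos_left h3 (by positivity)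
    _ = 2 ^ (r + 1 + (w.length + r + 3)) := (pow_add _ _ _).symm
    _ ≤ 2 ^ (2 * (triple k r w).length + 4) := by
      rw [triple_length]
      exact Nat.pow_le_pow_right (by norm_num) (by omega)

end NULLGEN_

open NULLGEN_

theorem nullgen : T_NULLGEN := by
  intro V hloc hthin
  refine ⟨H V, ?_⟩
  intro O hO X hX
  refine ⟨dst (V (H V)), ?_, ?_⟩
  · intro k
    refine ⟨Pool.Agent.RelM.ddens _ (hthin (H V)) k, Pool.Agent.RelM.dlam _ (hthin (H V)) k, ?_⟩
    intro A hA
    exact Pool.Agent.RelM.dcov _ (hthin (H V)) A (hX A hA) k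
  · obtain ⟨P, c, hPc⟩ := Pool.Agent.RelM.read Pool.Agent.RelM.stay
    refine ⟨P, c, ?_⟩
    intro k r w
    have h := hPc O (num V (H V))
      (fun j k r w => by
        rw [hO, hfix hloc]; exact (bits V (H V) j k r w).1)
      (fun j k r w => by
        rw [hO, hfix hloc]; exact (bits V (H V) j k r w).2.1)
      (fun j k r w => by
        rw [hO, hfix hloc]; exact (bits V (H V) j k r w).2.2)
      (numsize V (H V)) k r w
    refine ⟨h.1, ?_⟩
    simp only
    rw [h.2]
    have hd := Pool.Agent.RelM.dapp _ (hthin (H V)) k r w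
    set s : ℝ := ∑ n ∈ Finset.Icc (k + 1) (Nlim r w), pr (V (H V) n) w with hs
    have hs0 : 0 ≤ s := Finset.sum_nonneg fun n _ => (Pool.Agent.RelM.prr n _ w).1
    have hf1 : (num V (H V) k r w : ℝ) ≤ 2 ^ (r + 1) * s := Nat.floor_le (by positivity)
    have hf2 : (2 : ℝ) ^ (r + 1) * s < (num V (H V) k r w : ℝ) + 1 := Nat.lt_floor_add_one _
    have h2 : (0 : ℝ) < 2 ^ (r + 1) := by positivity
    have h3 : |(num V (H V) k r w : ℝ) / 2 ^ (r + 1) - s| ≤ (1 / 2 : ℝ) ^ (r + 1) := by
      rw [abs_le]
      constructor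
      · rw [le_sub_iff_add_le, one_div, inv_pow]
        have : (-((2 : ℝ) ^ (r + 1))⁻¹ + s) ≤ (num V (H V) k r w : ℝ) / 2 ^ (r + 1) := by
          rw [le_div_iff₀ h2]
          have : (-((2 : ℝ) ^ (r + 1))⁻¹ + s) * 2 ^ (r + 1) = 2 ^ (r + 1) * s - 1 := by
            field_simp
            ring
          rw [this]; linarith
        exact this
      · rw [sub_le_iff_le_add, div_le_iff₀ h2]
        have : ((1 / 2 : ℝ) ^ (r + 1) + s) * 2 ^ (r + 1) = 2 ^ (r + 1) * s + 1 := by
          rw [one_div, inv_pow]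
          field_simp
          ring
        rw [this]; linarith
    have h4 : (1 / 2 : ℝ) ^ r = (1 / 2 : ℝ) ^ (r + 1) + (1 / 2 : ℝ) ^ (r + 1) := by
      rw [pow_succ]; ring
    rw [h4]
    calc |(num V (H V) k r w : ℝ) / 2 ^ (r + 1) - dst (V (H V)) k w|
        = |((num V (H V) k r w : ℝ) / 2 ^ (r + 1) - s) - (dst (V (H V)) k w - s)| := by ring_nf
      _ ≤ |(num V (H V) k r w : ℝ) / 2 ^ (r + 1) - s| + |dst (V (H V)) k w - s| := abs_sub _ _
      _ ≤ _ := add_le_add h3 hd

end Pool.Agent.RelA
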