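import Pool.Agent.RelA.Targets
import Pool.Agent.RelM.LOC
import Pool.Agent.RelM.HFIX
import Pool.Agent.RelG.ORC

/-!
# The second pair: locality and thinness (job PAIR2)
-/

set_option autoImplicit false

namespace Pool.Agent.RelA

open Pool.Agent.RelM (Lang Instr Cfg step run Halts Decides E1 E2 NP pair triple binVal outVal
  Approx IsDensity str pre IsNullCover Null1 Null2 wq sq0 sq1 Asks qb slice pr dst Nlim hq Thin)
open Pool.Agent.RelG (lv tm ln rk lg req beg)

namespace PAIR2_

/-- The values at short points depend on short words only. -/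
lemma val_congr {Φ : Fields} {G G' : Lang} (m : ℕ)
    (hG : ∀ u : List Bool, u.length + 2 ≤ m → G u = G' u) (i : ℕ) (z : List (Φ.F i))
    (hz : z.length ≤ m) : val G (K0 Φ) i z = val G' (K0 Φ) i z := by
  unfold val
  refine Finset.sum_congr rfl fun x _ => ?_
  have h1 : RelG.orc G (kc (K0 Φ)) (List.ofFn x) = RelG.orc G' (kc (K0 Φ)) (List.ofFn x) := by
    refine RelG.oloc G G' (kc (K0 Φ)) m hG _ ?_
    rw [List.length_ofFn]
    exact hz
  unfold bump
  rw [h1]

/-- The answers to short words depend on short words only. -/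
lemma ext_congr (hL : T_AQLEN) {Φ : Fields} {G G' : Lang} (m : ℕ)
    (hG : ∀ u : List Bool, u.length + 2 ≤ m → G u = G' u) (q : List Bool) (hq : q.length ≤ m) :
    ext G (K0 Φ) q = ext G' (K0 Φ) q := by
  unfold ext
  rw [decide_eq_decide]
  refine exists_congr fun i => exists_congr fun j => exists_congr fun z =>
    and_congr_right fun hz => ?_
  have h1 : z.length ≤ m := by
    have := hL Φ i j z
    rw [← hz] at this
    omega
  rw [val_congr m hG i z h1]

lemma acc2_congr (hL : T_AQLEN) {Φ : Fields} {G G' : Lang} (v : List Instr × ℕ × ℕ)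
    (x : List Bool) (hG : ∀ u : List Bool, u.length + 2 ≤ qb v x.length → G u = G' u) :
    acc2 Φ G v x ↔ acc2 Φ G' v x := by
  unfold acc2
  refine exists_congr fun y => and_congr_right fun hy => ?_
  have hrun : run (ext G' (K0 Φ)) v.1 (pair x y) ((x.length + 2) ^ v.2.2) =
      run (ext G (K0 Φ)) v.1 (pair x y) ((x.length + 2) ^ v.2.2) := by
    refine Pool.Agent.RelM.loc (ext G (K0 Φ)) (ext G' (K0 Φ)) v.1 (pair x y)
      ((x.length + 2) ^ v.2.2) ?_ _ le_rfl
    intro s hs q hq
    have hl := Pool.Agent.RelM.len _ _ _ _ _ hq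
    rw [Pool.Agent.RelM.HFIX_.pair_length] at hl
    have hb := Pool.Agent.RelM.HFIX_.qb_bound v x.length
    refine ext_congr hL (qb v x.length) hG q ?_
    omega
  rw [hrun]

end PAIR2_

open PAIR2_

open Classical in
theorem v2loc (hL : T_AQLEN) : T_V2LOC := by
  intro Φ G G' n hG
  unfold V2
  ext v
  refine exists_congr fun e => and_congr_right fun _ => and_congr_right fun hqb => ?_
  have : slice (fun x => decide (acc2 Φ G (RelG.cd e) x)) n =
      slice (fun x => decide (acc2 Φ G' (RelG.cd e) x)) n := by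
    funext j
    unfold slice
    rw [decide_eq_decide]
    refine acc2_congr hL _ _ fun u hu => hG u ?_
    rw [Pool.Agent.RelM.str_length_slice n j j.2] at hu
    omega
  rw [this]

open Classical in
theorem v2thin : T_V2THIN := by
  intro Φ G n
  have hV : V2 Φ G n ⊆ ((Finset.range (n + 1)).image fun e =>
      slice (fun x => decide (acc2 Φ G (RelG.cd e) x)) n : Finset (Fin (2 ^ n) → Bool)) := by
    rintro u ⟨e, hen, -, rfl⟩
    rw [Finset.mem_coe, Finset.mem_image]
    refine ⟨e, ?_, ?_⟩
    · rw [Finset.mem_range]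
      exact Nat.lt_succ_of_le hen
    · congr
  have h1 : (V2 Φ G n).ncard ≤ n + 1 := by
    refine (Set.ncard_le_ncard hV (Finset.finite_toSet _)).trans ?_
    rw [Set.ncard_coe_finset]
    refine Finset.card_image_le.trans ?_
    rw [Finset.card_range]
  refine h1.trans ?_
  rcases Nat.eq_zero_or_pos n with h0 | h0
  · subst h0
    decide
  · have h2 : n < 2 ^ (n - 1) + 1 := by
      have := Nat.lt_two_pow_self (n := n - 1)
      omega
    have h3 : n + 1 ≤ 2 ^ n := Nat.lt_two_pow_self
    exact h3.trans (Nat.pow_le_pow_right (by norm_num) (by omega))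

end Pool.Agent.RelA
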