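import Pool.Agent.RelA.Targets

/-!
# Times (job TIMES)
-/

set_option autoImplicit false

namespace Pool.Agent.RelA

open Pool.Agent.RelM (triple)
open Pool.Agent.RelG (tm)

namespace TIMES_

lemma inp_length (e : ℕ) (u : List Bool) :
    (inp e u).length = 2 ^ e + 2 * e + 2 * u.length + 12 := by
  simp only [inp, triple, List.length_append, List.length_replicate, List.length_cons]
  omega

lemma inp_le (e : ℕ) (u : List Bool) (h : 2 ^ e ≤ u.length + 1) :
    (inp e u).length ≤ 5 * u.length + 13 := by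
  rw [inp_length]
  have : e < 2 ^ e := Nat.lt_two_pow_self
  omega

lemma four (u : ℕ) : 5 * u + 15 ≤ (u + 2) ^ 4 := by
  have : (u + 2) ^ 4 = u ^ 4 + 8 * u ^ 3 + 24 * u ^ 2 + 32 * u + 16 := by ring
  rw [this]
  nlinarith [Nat.zero_le (u ^ 4), Nat.zero_le (u ^ 3), Nat.zero_le (u ^ 2)]

lemma log_le (u : ℕ) : Nat.log 2 (5 * u + 13) + 2 ≤ (Nat.log 2 u + 2) ^ 4 := by
  rcases Nat.eq_zero_or_pos u with rfl | hu
  · have h : Nat.log 2 (5 * 0 + 13) < 4 := Nat.log_lt_of_lt_pow (by norm_num) (by norm_num)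
    have h2 : (Nat.log 2 0 + 2) ^ 4 = 16 := by simp
    omega
  · have h1 : 5 * u + 13 ≤ u * 2 ^ 5 := by omega
    have h2 : Nat.log 2 (5 * u + 13) ≤ Nat.log 2 (u * 2 ^ 5) := Nat.log_mono_right h1
    have h3 : Nat.log 2 (u * 2 ^ 5) = Nat.log 2 u + 5 := by
      have h4 : ∀ k, Nat.log 2 (u * 2 ^ k) = Nat.log 2 u + k := by
        intro k
        induction k with
        | zero => simp
        | succ k ih =>
          rw [pow_succ, ← mul_assoc, Nat.log_mul_base (by norm_num) (by positivity), ih]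
          ring
      exact h4 5
    have h5 := four (Nat.log 2 u)
    omega

end TIMES_

open TIMES_

theorem time1 : T_TIME1 := by
  intro c e u h
  have h1 := inp_le e u h
  have h2 : tm (2 * (4 * c) + 1) u.length = (u.length + 2) ^ (4 * c) := by
    unfold tm
    rw [if_neg (by omega), show (2 * (4 * c) + 1) / 2 = 4 * c by omega]
  rw [h2, pow_mul]
  refine Nat.pow_le_pow_left ?_ c
  have := four u.length
  omega

theorem time2 : T_TIME2 := by
  intro c e u h
  have h1 := inp_le e u h
  have h2 : tm (2 * (4 * c)) u.length = 2 ^ ((Nat.log 2 u.length + 2) ^ (4 * c)) := by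
    unfold tm
    rw [if_pos (by omega), show (2 * (4 * c)) / 2 = 4 * c by omega]
  rw [h2, pow_mul]
  refine Nat.pow_le_pow_right (by norm_num) (Nat.pow_le_pow_left ?_ c)
  have h3 : Nat.log 2 (inp e u).length ≤ Nat.log 2 (5 * u.length + 13) := Nat.log_mono_right h1
  have := log_le u.length
  omega

end Pool.Agent.RelA
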