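import Pool.Agent.RelA.Core

/-!
# The targets of the jobs
-/

set_option autoImplicit false

namespace Pool.Agent.RelA

open Pool.Agent.RelM (Lang Instr Cfg step run Halts Decides E1 E2 NP pair triple binVal outVal
  Approx IsDensity str pre IsNullCover Null1 Null2 wq sq0 sq1 Asks qb slice pr dst Nlim hq Thin)
open Pool.Agent.RelG (lv tm ln rk lg req beg)

/-! ## Algebra (job ALG) -/

/-- All but at most `#Z` Boolean points `x` are good: some polynomial of degree at most `2` in each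
variable is `1` at `x`, `0` at all other Boolean points and `0` on `Z`. -/
def T_ALG : Prop := ∀ (F : Type) [Field F] (M : ℕ) (Z : Finset (Fin M → F)),
  {x : Fin M → Bool | ¬ ∃ p : MvPolynomial (Fin M) F, (∀ v, p.degreeOf v ≤ 2) ∧
    (∀ x' : Fin M → Bool, MvPolynomial.eval (bp F x') p = if x' = x then 1 else 0) ∧
    ∀ z ∈ Z, MvPolynomial.eval z p = 0}.ncard ≤ Z.card

/-- `dl x` stands for `x`, with a polynomial of degree at most `1` in each variable. -/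
def T_DL : Prop := ∀ (F : Type) [Field F] (x : List Bool), Stands x (dl (F := F) x)

/-! ## Words (job AQ) -/

def T_AQLEN : Prop := ∀ (Φ : Fields) (i j : ℕ) (z : List (Φ.F i)), z.length ≤ (aq Φ i j z).length

def T_AQINJ : Prop := ∀ (Φ : Fields) (i j i' j' : ℕ) (z : List (Φ.F i)) (z' : List (Φ.F i')),
  aq Φ i j z = aq Φ i' j' z' → i = i' ∧ j = j' ∧ HEq z z'

/-! ## The extension (jobs EXT, VAL) -/

def T_EXT : Prop := ∀ (Φ : Fields) (G : Lang) (K : Conf Φ),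
  (∀ κ n y Q, K κ n = some (y, Q) → ∀ i, Stands (wq κ (str n) y) (Q i)) →
  IsExt Φ (RelG.orc G (kc K)) (ext G K)

def T_VAL : Prop := ∀ (Φ : Fields) (G : Lang) (K : Conf Φ) (r i : ℕ) (z : List (Φ.F i)),
  (∀ κ n y Q, r ≤ rk κ n → K κ n = some (y, Q) → (wq κ (str n) y).length = z.length →
    Q i z = 0) →
  (∀ κ n, r ≤ rk κ n → z.length ≤ 2 ^ lv κ (ln n)) → val G (cut r K) i z = val G K i z

/-! ## Free keys (job EKEY) -/

def T_EKEY : Prop := ∀ (Φ : Fields) (G : Lang) (K : Conf Φ) (κ n : ℕ), ∃ y Q, Adm G K κ n y Q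

/-! ## The configuration (job CONFA) -/

def T_CONFA : Prop := ∀ (Φ : Fields) (G : Lang), ∃ K : Conf Φ, Nice G K

/-! ## The runs keep their values (job HIDA) -/

def T_HIDA : Prop := ∀ (Φ : Fields) (G : Lang) (K : Conf Φ), Nice G K →
  ∀ (κ n e : ℕ) (u : List Bool), e ≤ ln n → (req e).1 = κ →
    (u = beg (kc K) κ n ∨ ∃ b, u = beg (kc K) κ n ++ [b]) → ∀ r, rk κ n ≤ r →
    av G (cut r K) κ e u = av G K κ e u

def T_RULEA : Prop := ∀ (Φ : Fields) (G : Lang) (K : Conf Φ), Nice G K → ∀ κ n,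
  ((K κ n).isSome ↔ Rule G K κ n)

/-! ## The adversary (job BET) -/

def T_BET : Prop := ∀ (Φ : Fields) (G : Lang) (K : Conf Φ) (κ : ℕ) (T : ℕ → ℕ),
  (∀ n, ((K κ n).isSome ↔ Rule G K κ n)) →
  (∀ (e : ℕ) (u : List Bool), 2 ^ e ≤ u.length + 1 → T (inp e u).length ≤ tm κ u.length) →
  ∀ (P : List Instr) (d : ℕ → List Bool → ℝ), Approx (ext G K) P T d →
    ¬ IsNullCover d {lg (kc K) κ}

/-! ## Times (job TIMES) -/

def T_TIME1 : Prop := ∀ (c e : ℕ) (u : List Bool), 2 ^ e ≤ u.length + 1 →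
  ((inp e u).length + 2) ^ c ≤ tm (2 * (4 * c) + 1) u.length

def T_TIME2 : Prop := ∀ (c e : ℕ) (u : List Bool), 2 ^ e ≤ u.length + 1 →
  2 ^ ((Nat.log 2 (inp e u).length + 2) ^ c) ≤ tm (2 * (4 * c)) u.length

/-! ## Null covers in general (job NULLGEN) -/

def T_NULLGEN : Prop := ∀ V : Lang → (n : ℕ) → Set (Fin (2 ^ n) → Bool),
  (∀ (G G' : Lang) (n : ℕ), (∀ u : List Bool, 4 * (u.length + 2) ≤ 2 ^ n → G u = G' u) →
    V G n = V G' n) →
  (∀ G, Thin (V G)) →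
  ∃ H : Lang, ∀ O : Lang, (∀ u, O (true :: true :: u) = H u) → ∀ X : Set Lang,
    (∀ A ∈ X, ∀ N, ∃ n, N ≤ n ∧ slice A n ∈ V H n) → Null1 O X

/-! ## The second pair (job PAIR2) -/

def T_V2LOC : Prop := ∀ (Φ : Fields) (G G' : Lang) (n : ℕ),
  (∀ u : List Bool, 4 * (u.length + 2) ≤ 2 ^ n → G u = G' u) → V2 Φ G n = V2 Φ G' n

def T_V2THIN : Prop := ∀ (Φ : Fields) (G : Lang), Thin (V2 Φ G)

/-! ## The theorems (job MAINA) -/

def T_MAIN1 : Prop := ∀ Φ : Fields, ∃ A B : Lang, IsExt Φ A B ∧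
  ¬ Null1 B (NP A ∩ E1 A) ∧ ¬ Null2 B (NP A ∩ E2 A)

def T_MAIN2 : Prop := ∀ Φ : Fields, ∃ A B : Lang, IsExt Φ A B ∧ Null1 A (NP B)

end Pool.Agent.RelA
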