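import Pool.Agent.RelA.Targets
import Pool.Agent.RelG.ORC

/-!
# Job VAL: the values do not change
-/

set_option autoImplicit false

namespace Pool.Agent.RelA

open Pool.Agent.RelM (Lang Instr Cfg step run Halts Decides E1 E2 NP pair triple binVal outVal
  Approx IsDensity str pre IsNullCover Null1 Null2 wq sq0 sq1 Asks qb slice pr dst Nlim hq Thin)
open Pool.Agent.RelG (lv tm ln rk lg req beg)
open Classical

namespace VAL_

/-- The pair, the key and the functions of a key word are unique. -/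
lemma key_unique {Φ : Fields} {K : Conf Φ} {κ n κ' n' : ℕ} {y y' : List Bool}
    {Q Q' : ∀ i, List (Φ.F i) → Φ.F i} (h : K κ n = some (y, Q)) (h' : K κ' n' = some (y', Q'))
    (hw : wq κ (str n) y = wq κ' (str n') y') : κ = κ' ∧ n = n' ∧ y = y' ∧ Q = Q' := by
  obtain ⟨h1, h2, h3⟩ := RelM.wq_inj hw
  have h4 : n = n' := RelM.strinj h2
  subst h1 h4 h3
  rw [h] at h'
  have h5 := Option.some.inj h'
  exact ⟨rfl, rfl, rfl, congrArg Prod.snd h5⟩

lemma bump_key {Φ : Fields} (G : Lang) (K : Conf Φ) (i : ℕ) {κ n : ℕ} {y : List Bool}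
    {Q : ∀ i, List (Φ.F i) → Φ.F i} (h : K κ n = some (y, Q)) (z : List (Φ.F i)) :
    bump G K i (wq κ (str n) y) z = Q i z := by
  have hex : ∃ p : ℕ × ℕ × List Bool × (∀ i, List (Φ.F i) → Φ.F i),
      K p.1 p.2.1 = some (p.2.2.1, p.2.2.2) ∧ wq κ (str n) y = wq p.1 (str p.2.1) p.2.2.1 :=
    ⟨(κ, n, y, Q), h, rfl⟩
  rw [bump, dif_pos hex]
  obtain ⟨h1, h2⟩ := hex.choose_spec
  rw [← (key_unique h h1 h2).2.2.2]

lemma bump_not_key {Φ : Fields} (G : Lang) (K : Conf Φ) (i : ℕ) {x : List Bool}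
    (h : ∀ κ n y Q, K κ n = some (y, Q) → x ≠ wq κ (str n) y) (z : List (Φ.F i)) :
    bump G K i x z = if RelG.orc G (kc K) x = true then dl x z else 0 := by
  have hex : ¬ ∃ p : ℕ × ℕ × List Bool × (∀ i, List (Φ.F i) → Φ.F i),
      K p.1 p.2.1 = some (p.2.2.1, p.2.2.2) ∧ x = wq p.1 (str p.2.1) p.2.2.1 := by
    rintro ⟨p, h1, h2⟩
    exact h _ _ _ _ h1 h2
  rw [bump, dif_neg hex]

lemma cut_some {Φ : Fields} {K : Conf Φ} {r κ n : ℕ} {v} (h : cut r K κ n = some v) :
    rk κ n < r ∧ K κ n = some v := by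
  unfold cut at h
  by_cases hr : rk κ n < r
  · rw [if_pos hr] at h
    exact ⟨hr, h⟩
  · rw [if_neg hr] at h
    exact absurd h (by simp)

lemma cut_of_lt {Φ : Fields} (K : Conf Φ) {r κ n : ℕ} (h : rk κ n < r) : cut r K κ n = K κ n := by
  unfold cut
  rw [if_pos h]

lemma cut_of_le {Φ : Fields} (K : Conf Φ) {r κ n : ℕ} (h : r ≤ rk κ n) : cut r K κ n = none := by
  unfold cut
  rw [if_neg (not_lt.2 h)]

lemma kc_some {Φ : Fields} {K : Conf Φ} {κ n : ℕ} {y : List Bool} (h : kc K κ n = some y) :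
    ∃ Q, K κ n = some (y, Q) := by
  unfold kc at h
  rw [Option.map_eq_some_iff] at h
  obtain ⟨⟨y', Q⟩, h1, h2⟩ := h
  obtain rfl : y' = y := h2
  exact ⟨Q, h1⟩

end VAL_

open VAL_ in
theorem val_cut (hO : RelG.T_ODIFF) (hW : RelG.T_OWQ) : T_VAL := by
  intro Φ G K r i z h1 h2
  unfold val
  refine Finset.sum_congr rfl fun x _ => ?_
  have hlen : (List.ofFn x).length = z.length := List.length_ofFn
  generalize hX : List.ofFn x = W at *
  by_cases hk : ∃ κ n y Q, K κ n = some (y, Q) ∧ W = wq κ (str n) y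
  · obtain ⟨κ, n, y, Q, hK, hWq⟩ := hk
    rw [hWq]
    rw [bump_key G K i hK]
    by_cases hr : rk κ n < r
    · exact bump_key G (cut r K) i ((cut_of_lt K hr).trans hK) z
    · have hr' : r ≤ rk κ n := not_lt.1 hr
      rw [h1 κ n y Q hr' hK (by rw [← hWq]; exact hlen)]
      rw [bump_not_key G (cut r K) i, if_neg]
      · intro h3
        rw [hW] at h3
        obtain ⟨Q', h4⟩ := kc_some h3
        exact hr (cut_some h4).1
      · intro κ' n' y' Q' h3 h4
        obtain ⟨h5, h6⟩ := cut_some h3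
        obtain ⟨e1, e2, -, -⟩ := key_unique hK h6 h4
        subst e1 e2
        exact hr h5
  · have hk1 : ∀ κ n y Q, K κ n = some (y, Q) → W ≠ wq κ (str n) y :=
      fun κ n y Q h3 h4 => hk ⟨κ, n, y, Q, h3, h4⟩
    have hk2 : ∀ κ n y Q, cut r K κ n = some (y, Q) → W ≠ wq κ (str n) y :=
      fun κ n y Q h3 => hk1 κ n y Q (cut_some h3).2
    rw [bump_not_key G K i hk1, bump_not_key G (cut r K) i hk2]
    have heq : RelG.orc G (kc (cut r K)) W = RelG.orc G (kc K) W := by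
      by_contra hne
      obtain ⟨κ, n, h3, h4⟩ := hO G _ _ W hne
      have hr : r ≤ rk κ n := by
        by_contra hr
        refine h3 ?_
        unfold kc
        rw [cut_of_lt K (not_le.1 hr)]
      rcases h4 with ⟨y, h5, h6 | h6⟩ | h4
      · obtain ⟨Q, h7⟩ := kc_some h6
        exact hk2 _ _ _ _ h7 h5
      · obtain ⟨Q, h7⟩ := kc_some h6
        exact hk1 _ _ _ _ h7 h5
      · have h5 := h2 κ n hr
        omega
    rw [heq]

end Pool.Agent.RelA
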